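import Pool.Agent.Helper33.SF.Defs

/-!
# SF: one level of bumps on a wall

PROOF NOTES.  `N` = the `c ∈ C` such that not (`c.1 + Q₀ - |z - c.2| < f z` for all `z`).  For `c ∈ N`: `f c.2 ≤ c.1 + Q₀`.  The cone `co c z = c.1 - Q₀ + L' |z - c.2|` satisfies
`co c z ≥ f z - 2 Q₀ + (L' - L) |z - c.2|`.  If `co c z < f z` then `|z - c.2| < R₀` and `|c.1 - f z| ≤ Q₀ + R₀` (`2 Q₀ ≤ (L' - L) R₀`, `Q₀ ≤ R₀`).
So for each `z` at most one `c ∈ N` has `co c z < f z`.  `g z = co c z` for this `c` if it exists, else `f z`.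
Lipschitz: `g ≤ f` and `g ≤ co c` for all `c ∈ N`, with equality in one of them at each point.
Dichotomy: `c ∈ N`: `g ≤ co c ≤ c.1 - Q₀ + |z - c.2|`.  `c ∉ N`: if `g z = co c' z < f z` and `c.1 + Q₀ - |z - c.2| ≥ g z ≥ f z - 2 Q₀`, then with `c.1 + Q₀ < f c.2 ≤ f z + L |z - c.2|` one gets
`(1 - L) |z - c.2| < 2 Q₀`, so `|z - c.2| < R₀`, `|c.1 - f z| ≤ 3 Q₀ + R₀`, and `c`, `c'` are too close.
-/

set_option autoImplicit false

namespace SF

private theorem lz_nat {L : ℝ} {f : ℤ → ℝ} (hf : Lz L f) (a : ℤ) (n : ℕ) :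
    |f (a + n) - f a| ≤ L * n := by
  induction n with
  | zero => simp
  | succ n ih =>
    have h := hf (a + n)
    have e : (a + ((n + 1 : ℕ) : ℤ)) = a + n + 1 := by push_cast; ring
    rw [e]
    push_cast
    have h3 := abs_sub_le (f (a + n + 1)) (f (a + n)) (f a)
    linarith

private theorem lz_int {L : ℝ} {f : ℤ → ℝ} (hf : Lz L f) (a b : ℤ) :
    |f b - f a| ≤ L * |(b : ℝ) - a| := by
  rcases le_total a b with h | h
  · obtain ⟨n, rfl⟩ := Int.exists_add_of_le h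
    have := lz_nat hf a n
    have e : ((a + (n : ℤ) : ℤ) : ℝ) - (a : ℝ) = (n : ℝ) := by push_cast; ring
    have e2 : |(n : ℝ)| = (n : ℝ) := abs_of_nonneg (Nat.cast_nonneg n)
    rw [e, e2]
    exact this
  · obtain ⟨n, rfl⟩ := Int.exists_add_of_le h
    have := lz_nat hf b n
    have e : (b : ℝ) - ((b + (n : ℤ) : ℤ) : ℝ) = -(n : ℝ) := by push_cast; ring
    have e2 : |(n : ℝ)| = (n : ℝ) := abs_of_nonneg (Nat.cast_nonneg n)
    rw [e, abs_neg, e2, abs_sub_comm]
    exact this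

private theorem n1_real (c c' : Cell) :
    ((n1 (c - c') : ℤ) : ℝ) = |(c.1 : ℝ) - c'.1| + |(c.2 : ℝ) - c'.2| := by
  unfold n1
  push_cast
  simp

theorem bump (L L' Q₀ R₀ K₀ : ℝ) (h0 : 0 ≤ L) (h1 : L < L') (h2 : L' ≤ 1) (hQ : 0 < Q₀)
    (hR : 2 * Q₀ ≤ (L' - L) * R₀) (hQR : 8 * Q₀ ≤ R₀) (hK : 6 * R₀ + 2 ≤ K₀) (f : ℤ → ℝ) (hf : Lz L f)
    (C : Set Cell) (hC : ∀ c c', c ∈ C → c' ∈ C → c = c' ∨ K₀ < (n1 (c - c') : ℝ)) :
    ∃ g : ℤ → ℝ, Lz L' g ∧ (∀ z, g z ≤ f z) ∧ (∀ z, f z - 2 * Q₀ ≤ g z) ∧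
      (∀ c ∈ C, (∀ z : ℤ, g z ≤ c.1 - Q₀ + |(z : ℝ) - c.2|) ∨
        ∀ z : ℤ, c.1 + Q₀ - |(z : ℝ) - c.2| < g z) ∧
      ∀ z : ℤ, g z ≠ f z → ∃ c ∈ C, |(z : ℝ) - c.2| ≤ R₀ ∧ |(c.1 : ℝ) - f z| ≤ 2 * R₀ := by
  classical
  have hL1 : L ≤ 1 := by linarith
  have hd : 0 < L' - L := by linarith
  -- distances in the flat coordinate
  have small : ∀ t : ℝ, (L' - L) * t < 2 * Q₀ → t < R₀ := by
    intro t ht
    by_contra hcon
    push Not at hcon
    have : (L' - L) * R₀ ≤ (L' - L) * t := mul_le_mul_of_nonneg_left hcon hd.le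
    linarith
  -- the set N
  let N : Set Cell := {c | c ∈ C ∧ f c.2 ≤ (c.1 : ℝ) + Q₀}
  let co : Cell → ℤ → ℝ := fun c z => (c.1 : ℝ) - Q₀ + L' * |(z : ℝ) - c.2|
  have lip : ∀ (c : Cell) (z : ℤ), |f z - f c.2| ≤ L * |(z : ℝ) - c.2| := fun c z => lz_int hf c.2 z
  have co_ge : ∀ c ∈ N, ∀ z, f z - 2 * Q₀ + (L' - L) * |(z : ℝ) - c.2| ≤ co c z := by
    intro c hc z
    have a1 := abs_le.1 (lip c z)
    have a2 := hc.2
    simp only [co]
    linarith [a1.2, sub_mul L' L |(z : ℝ) - c.2|]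
  have hit : ∀ c ∈ N, ∀ z, co c z < f z → |(z : ℝ) - c.2| < R₀ ∧ |(c.1 : ℝ) - f z| ≤ Q₀ + R₀ := by
    intro c hc z hz
    have b1 := co_ge c hc z
    have b2 : |(z : ℝ) - c.2| < R₀ := small _ (by linarith)
    refine ⟨b2, ?_⟩
    have a1 := abs_le.1 (lip c z)
    have a2 := hc.2
    have a3 := abs_nonneg ((z : ℝ) - c.2)
    have a4 : L * |(z : ℝ) - c.2| ≤ R₀ := by nlinarith
    have a5 : 0 ≤ L' * |(z : ℝ) - c.2| := mul_nonneg (by linarith) a3
    simp only [co] at hz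
    rw [abs_le]
    constructor <;> linarith [a1.1, a1.2]
  have uniq : ∀ c ∈ N, ∀ c' ∈ N, ∀ z, co c z < f z → co c' z < f z → c = c' := by
    intro c hc c' hc' z hz hz'
    rcases hC c c' hc.1 hc'.1 with h | h
    · exact h
    · exfalso
      rw [n1_real] at h
      obtain ⟨p1, p2⟩ := hit c hc z hz
      obtain ⟨q1, q2⟩ := hit c' hc' z hz'
      have t1 := abs_sub_le (c.1 : ℝ) (f z) (c'.1 : ℝ)
      have t2 := abs_sub_le (c.2 : ℝ) (z : ℝ) (c'.2 : ℝ)
      rw [abs_sub_comm (f z) (c'.1 : ℝ)] at t1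
      rw [abs_sub_comm (c.2 : ℝ) (z : ℝ)] at t2
      linarith
  let g : ℤ → ℝ := fun z => if h : ∃ c, c ∈ N ∧ co c z < f z then co h.choose z else f z
  have gB : ∀ z, g z = f z ∨ ∃ c ∈ N, co c z < f z ∧ g z = co c z := by
    intro z
    by_cases h : ∃ c, c ∈ N ∧ co c z < f z
    · right
      refine ⟨h.choose, h.choose_spec.1, h.choose_spec.2, ?_⟩
      simp only [g]
      rw [dif_pos h]
    · left
      simp only [g]
      rw [dif_neg h]
  have gA : ∀ z, ∀ c ∈ N, g z ≤ co c z := by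
    intro z c hc
    by_cases h : ∃ c, c ∈ N ∧ co c z < f z
    · have e : g z = co h.choose z := by
        simp only [g]
        rw [dif_pos h]
      rw [e]
      by_cases h' : co c z < f z
      · rw [uniq _ h.choose_spec.1 c hc z h.choose_spec.2 h']
      · push Not at h'
        exact (h.choose_spec.2.trans_le h').le
    · have e : g z = f z := by
        simp only [g]
        rw [dif_neg h]
      rw [e]
      by_contra hcon
      push Not at hcon
      exact h ⟨c, hc, hcon⟩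
  have gf : ∀ z, g z ≤ f z := by
    intro z
    rcases gB z with h | ⟨c, hc, h, h'⟩
    · exact h.le
    · rw [h']
      exact h.le
  have step : ∀ (c : Cell) (z w : ℤ), |(w : ℝ) - z| ≤ 1 → co c w ≤ co c z + L' := by
    intro c z w hzw
    simp only [co]
    have t := abs_sub_le (w : ℝ) (z : ℝ) (c.2 : ℝ)
    have : L' * |(w : ℝ) - c.2| ≤ L' * (1 + |(z : ℝ) - c.2|) :=
      mul_le_mul_of_nonneg_left (by linarith) (by linarith)
    linarith
  have gstep : ∀ z w : ℤ, |(w : ℝ) - z| ≤ 1 → g w ≤ g z + L' := by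
    intro z w hzw
    rcases gB z with h | ⟨c, hc, h, h'⟩
    · rw [h]
      have a1 := abs_le.1 (lz_int hf z w)
      have a2 : L * |(w : ℝ) - z| ≤ L := by nlinarith
      linarith [gf w, a1.2]
    · rw [h']
      exact (gA w c hc).trans (step c z w hzw)
  refine ⟨g, ?_, gf, ?_, ?_, ?_⟩
  · intro z
    have a1 := gstep z (z + 1) (by push_cast; simp)
    have a2 := gstep (z + 1) z (by push_cast; simp)
    rw [abs_le]
    constructor <;> linarith
  · intro z
    rcases gB z with h | ⟨c, hc, h, h'⟩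
    · rw [h]; linarith
    · rw [h']
      have := co_ge c hc z
      have a3 : 0 ≤ (L' - L) * |(z : ℝ) - c.2| := mul_nonneg hd.le (abs_nonneg _)
      linarith
  · intro c hc
    by_cases hN : ∀ z : ℤ, (c.1 : ℝ) + Q₀ - |(z : ℝ) - c.2| < f z
    · right
      intro z
      rcases gB z with h | ⟨c', hc', h, h'⟩
      · rw [h]; exact hN z
      · by_contra hcon
        push Not at hcon
        have b1 := co_ge c' hc' z
        have b2 : 0 ≤ (L' - L) * |(z : ℝ) - c'.2| := mul_nonneg hd.le (abs_nonneg _)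
        have b3 := hN c.2
        have b4 : |((c.2 : ℤ) : ℝ) - c.2| = 0 := by simp
        have b5 := abs_le.1 (lip c z)
        have b6 := abs_nonneg ((z : ℝ) - c.2)
        rw [h'] at hcon
        have b7 : |(z : ℝ) - c.2| < R₀ := by
          apply small
          have : (L' - L) * |(z : ℝ) - c.2| ≤ (1 - L) * |(z : ℝ) - c.2| :=
            mul_le_mul_of_nonneg_right (by linarith) b6
          linarith [b5.1, sub_mul 1 L |(z : ℝ) - c.2|]
        have b8 : L * |(z : ℝ) - c.2| ≤ R₀ := by nlinarith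
        have b9 : |(c.1 : ℝ) - f z| ≤ R₀ := by
          rw [abs_le]
          constructor <;> linarith [b5.1]
        obtain ⟨q1, q2⟩ := hit c' hc' z h
        rcases hC c c' hc hc'.1 with h3 | h3
        · subst h3
          have := hc'.2
          linarith
        · rw [n1_real] at h3
          have t1 := abs_sub_le (c.1 : ℝ) (f z) (c'.1 : ℝ)
          have t2 := abs_sub_le (c.2 : ℝ) (z : ℝ) (c'.2 : ℝ)
          rw [abs_sub_comm (f z) (c'.1 : ℝ)] at t1
          rw [abs_sub_comm (c.2 : ℝ) (z : ℝ)] at t2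
          linarith
    · left
      push Not at hN
      obtain ⟨w, hw⟩ := hN
      have hcN : c ∈ N := by
        refine ⟨hc, ?_⟩
        have a1 := abs_le.1 (lip c w)
        have a2 : L * |(w : ℝ) - c.2| ≤ |(w : ℝ) - c.2| := by
          have := abs_nonneg ((w : ℝ) - c.2)
          nlinarith
        linarith [a1.1]
      intro z
      have := gA z c hcN
      have a2 : L' * |(z : ℝ) - c.2| ≤ |(z : ℝ) - c.2| := by
        have := abs_nonneg ((z : ℝ) - c.2)
        nlinarith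
      simp only [co] at this
      linarith
  · intro z hz
    rcases gB z with h | ⟨c, hc, h, h'⟩
    · exact absurd h hz
    · obtain ⟨q1, q2⟩ := hit c hc z h
      exact ⟨c, hc.1, q1.le, by linarith⟩

end SF
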