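import Mathlib

/-!
# SF: a measure lemma

PROOF NOTES.  `μ (E j) ≤ ∑ i, μ (W i j) = ∑ i, μ (T' i ⁻¹' W i j) = μ (⋃ i, T' i ⁻¹' W i j) ≤ μ (E (j + 1))`; the sets `T' i ⁻¹' W i j` are the images, they are
disjoint and contained in `E (j + 1)`.  So `j ↦ μ (E j)` is monotone; the `E j` are disjoint and the measure is finite, so all are null.
-/

set_option autoImplicit false

namespace SF

open MeasureTheory

theorem null_of_shift {α : Type} [MeasurableSpace α] (μ : Measure α) [IsFiniteMeasure μ]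
    {ι : Type} [Fintype ι] (T T' : ι → α → α) (hT' : ∀ i, MeasurePreserving (T' i) μ μ)
    (hl : ∀ i x, T' i (T i x) = x) (hr : ∀ i x, T i (T' i x) = x)
    (E : ℤ → Set α) (W : ι → ℤ → Set α) (hE : ∀ j, MeasurableSet (E j))
    (hd : ∀ i j, i ≠ j → Disjoint (E i) (E j)) (hW : ∀ i j, MeasurableSet (W i j))
    (hcov : ∀ j, E j ⊆ ⋃ i, W i j) (hmap : ∀ i j x, x ∈ W i j → T i x ∈ E (j + 1))
    (hinj : ∀ i i' j x x', x ∈ W i j → x' ∈ W i' j → T i x = T i' x' → i = i') (j : ℤ) :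
    μ (E j) = 0 := by
  sorry

end SF
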