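import Pool.Agent.Helper33.SF.Meas
import Pool.Agent.Helper33.SF.Disj

/-!
# SF: infinite chains have measure zero

PROOF NOTES.  By `hgt_S` and invariance it is enough to treat `x = z = 0` (`Inf` of `S x z y` at `(0, 0)` is `Inf` of `y` at `(x, z)`; the level changes by a constant).
`V = {y | Conf y ∧ Inf (hgt y) r 0 0}`.  Let `r = -1`.
(1) `E j = {y ∈ V | ph false (y 0 0) = true ∧ psi true y (hgt y) 0 0 0 e = j for the e with Bd (hgt y) 0 0 0 e}`.  The map: `y ↦ S p' (-1) y` where `Nx (hgt y) 0 0 0 (-1) p'`,
`p' ∈ {-1, 0, 1}`; it sends `E j` into `E (j + 1)` (`bd_psi`: the phase stays `true`) and is injective: two preimages have the same upper neighbour (`nx_symm`, `nx_uniq` with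
`r = 1`).  `null_of_shift` gives `ν (E j) = 0`.  So a.e. there is no `y ∈ V` with phase `true`, at no position.
(2) `E j` = the same with `ph false` at ALL members of the chain (in particular at the first) equal to `false` and `psi false = j`: null.
(3) The rest: phase `false` at the first member and `true` at some member; that member is a position of the kind (1).
`r = 1`: all the same, upwards `psi` decreases by `1` (use `E' j = E (-j)`); now the phase `false` stays `false` upwards; (1) phase `false`, (2) phase `true` at all
members of the chain, (3) the rest.
-/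

set_option autoImplicit false

namespace SF

open MeasureTheory EB

theorem chain_null {ν : Measure Pc} (hν : Law ν) {r : ℤ} (hr : r = 1 ∨ r = -1) :
    ∀ᵐ y ∂ν, ∀ x z, ¬ Inf (hgt y) r x z := by
  sorry

end SF
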