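import Pool.Agent.Helper33.SF.Lcl

/-!
# SF: labellings which are solutions

PROOF NOTES.  `u = un i0`, `v = un i1`, `i0 ≠ i1`.  The chart is `φ i j = i u + j v` for `|i| + |j| ≤ 2` (a vertex of the ball of radius `2`, see `BM.mem_ball_two`), the root otherwise.
-/

set_option autoImplicit false

namespace SF

open EB BM NI

theorem allowed_of {d K : ℕ} (y : Gd d → LabS K) (i0 i1 : Fin d) (hi : i0 ≠ i1)
    (hc : ∀ g h, Un g → Un h → (y g).1 = (y h).1 → g = h)
    (hp : ∀ g b s, nb 1 g → (y g).2.1 b s = (y (g + sg s • un (if b then i1 else i0))).1)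
    (hl : Conf fun i j => (y (i • un i0 + j • un i1)).2.2) :
    Allowed d (lclS K) fun b => y b.1 := by
  sorry

end SF
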