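import Pool.Agent.Helper33.SF.Lcl

/-!
# SF: reading a solution on the grid

PROOF NOTES.  `hy : ∀ g, Allowed d (lclS K) fun b => y (b.1 + g)`.  Each ball gives: the neighbours of `g` have distinct colours, the four pointers of `g` are distinct, a chart `φ`.  Let `e = φ 1 0`, `f = φ 0 1` (as vectors):
units (`adj`, `adj_zero`), `φ (-1) 0 = -e` by `Opp` (`opp_iff`: the only units `u, w` with exactly one common neighbour are `w = -u`), `φ 0 (-1) = -f`, `e ≠ ± f` because the pointers are distinct.
`drs`: the square `0, φ 1 0, φ 1 1, φ 0 1`: `φ 1 1` is a common neighbour of `e` and `f`, not `0` (`ptr` at `(1, 0)`: the colour of `φ 1 1` is the pointer `(1,0) -> (0,1)`, that of `φ 0 0` the pointer `(1,0) -> (-1,0)`, and the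
pointers at `e + g` are distinct by the rule at `e + g`), so `φ 1 1 = e + f`; so at `g + e` the vector with colour pointer `(0, 1)` is `f`; `φ 2 0`: at `g + e` the pointer `(-1, 0)` gives `-e`, and the chart at `g + e` gives that the
pointer `(1, 0)` is opposite.  Similarly for `-e`, `f`, `-f`.
`conf`: the chart at `g` satisfies `φ i j = i e + j f` for `|i| + |j| ≤ 2`; by `drs` this holds at all `g + x e + z f`; the rules `Loc` depend only on the cells with `|i| + |j| ≤ 2`.
-/

set_option autoImplicit false

namespace SF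

open EB BM

variable {d K : ℕ} {y : Gd d → LabS K}

theorem dr_exists (hy : ∀ g : Gd d, Allowed d (lclS K) fun b => y (b.1 + g)) (g : Gd d) :
    ∃ e f, Dr y g e f := by
  sorry

theorem dr_uniq (hy : ∀ g : Gd d, Allowed d (lclS K) fun b => y (b.1 + g)) {g e f e' f' : Gd d}
    (h : Dr y g e f) (h' : Dr y g e' f') : e = e' ∧ f = f' := by
  sorry

theorem dr_step (hy : ∀ g : Gd d, Allowed d (lclS K) fun b => y (b.1 + g)) {g e f : Gd d}
    (h : Dr y g e f) : Dr y (g + e) e f ∧ Dr y (g - e) e f ∧ Dr y (g + f) e f ∧ Dr y (g - f) e f := by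
  sorry

theorem dr_conf (hy : ∀ g : Gd d, Allowed d (lclS K) fun b => y (b.1 + g)) {g e f : Gd d}
    (h : Dr y g e f) : Conf fun i j => (y (g + i • e + j • f)).2.2 := by
  sorry

end SF
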