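import Mathlib

/-!
# Project SF (MP_eb515b_lc): an LCL problem which is easy generically (all free Borel actions) and hard for measures

Planar labels and rules.  `y : ℤ → ℤ → Lb`, `y x z` is the label of the cell in column `x` and row `z`.
A label has: `tt` (`some true`: inner side `I` of a wall, `some false`: outer side `O`, `none`: plain), a parity bit `bb` and for
both sides `s` a residue `gg s`, a phase `ph s`, a clock `ck s`.
-/

set_option autoImplicit false

namespace SF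

/-- planar labels -/
abbrev Lb : Type := Option Bool × Bool × (Bool → ZMod 3 × Bool × ZMod 64)

def tt (l : Lb) : Option Bool := l.1
def bb (l : Lb) : Bool := l.2.1
def gg (s : Bool) (l : Lb) : ZMod 3 := (l.2.2 s).1
def ph (s : Bool) (l : Lb) : Bool := (l.2.2 s).2.1
def ck (s : Bool) (l : Lb) : ZMod 64 := (l.2.2 s).2.2

/-- inner side of a wall -/
def In (l : Lb) : Prop := tt l = some true
/-- outer side of a wall -/
def Ou (l : Lb) : Prop := tt l = some false

/-- `s = false`: the growth wall is the left wall -/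
def sg (s : Bool) : ℤ := if s then 1 else -1

/-- the lift of `b - a` to `{-1, 0, 1}` -/
def lf (a b : ZMod 3) : ℤ := if b = a then 0 else if b = a + 1 then 1 else -1

open Classical in
/-- the change of the height on an edge -/
noncomputable def dh (a b : Lb) : ℤ := if In a ∧ Ou b then 1 else if Ou a ∧ In b then -1 else 0

/-- The rule for the 2 x 2 block `q i j` (`i`: column, `j`: row, `true` = `+ 1`). -/
structure BR (q : Bool → Bool → Lb) : Prop where
  full : (∃ i j, In (q i j)) → (∃ i j, Ou (q i j)) → ∀ i j, tt (q i j) ≠ none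
  nodiag : ∀ i j, In (q i j) → Ou (q (!i) j) → Ou (q i (!j)) → ¬ In (q (!i) (!j))
  circ : ¬ ((∃ i j, In (q i j)) ∧ ∃ i j, Ou (q i j)) → ∀ s,
    lf (gg s (q false false)) (gg s (q true false)) + lf (gg s (q true false)) (gg s (q true true)) =
    lf (gg s (q false false)) (gg s (q false true)) + lf (gg s (q false true)) (gg s (q true true))
  outc : (∃ i j, In (q i j)) → ∀ i j i' j', Ou (q i j) → Ou (q i' j') → ∀ s,
    gg s (q i j) = gg s (q i' j')
  cst : ∀ s j, In (q s j) → Ou (q (!s) j) → ∀ i' j', In (q i' j') → gg s (q i' j') = gg s (q s j)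
  grh : ∀ s j, In (q (!s) j) → Ou (q s j) → In (q s (!j)) → gg s (q s (!j)) = gg s (q (!s) (!j))
  tip : ∀ j, In (q false j) → In (q true j) → Ou (q false (!j)) → Ou (q true (!j)) → ∀ s,
    gg s (q false j) = gg s (q true j)

/-- The rule for an edge: equal heights have different parity bits. -/
def ER (a b : Lb) : Prop := dh a b = 0 → bb a ≠ bb b

/-- The rule for two consecutive cells `a` (top), `b` (bottom) of the growth wall. -/
def Step (s : Bool) (a b : Lb) : Prop :=
  (ph s a = false ∧ ph s b = false ∧ ck s b = ck s a + 1 ∧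
    lf (gg s a) (gg s b) = if ck s b = 0 then 1 else 0) ∨
  (ph s a = true ∧ ph s b = true ∧ ck s b = ck s a + 1 ∧
    lf (gg s a) (gg s b) = if ck s b = 0 then -1 else 0) ∨
  (ph s a = false ∧ ph s b = true ∧ gg s a = gg s b)

/-- all rules at the cell `(0, 0)`; they depend only on the cells `(i, j)` with `|i| + |j| ≤ 2` -/
structure Loc (w : ℤ → ℤ → Lb) : Prop where
  br : BR fun i j => w (if i then 1 else 0) (if j then 1 else 0)
  er1 : ER (w 0 0) (w 1 0)
  er2 : ER (w 0 0) (w 0 1)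
  vr : ∀ r, r = 1 ∨ r = -1 → In (w 0 0) → Ou (w 0 r) → Ou (w 1 0) ∨ Ou (w (-1) 0)
  up : ∀ s δ, |δ| ≤ 1 → In (w 0 1) → Ou (w (sg s) 1) → In (w δ 0) → Ou (w (δ + sg s) 0) →
    Step s (w 0 1) (w δ 0)

/-- all rules -/
def Conf (y : ℤ → ℤ → Lb) : Prop := ∀ x z, Loc fun i j => y (x + i) (z + j)

/-- exchange the two sides -/
def sw (l : Lb) : Lb := (l.1, l.2.1, fun s => l.2.2 (!s))

/-- the mirror image -/
def mir (y : ℤ → ℤ → Lb) : ℤ → ℤ → Lb := fun x z => sw (y (-x) z)

/-! ### Heights -/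

/-- `∑_{0 ≤ i < n} f i` for integers `n` -/
noncomputable def zs (f : ℤ → ℤ) (n : ℤ) : ℤ := ∑ i ∈ Finset.Ico 0 n, f i - ∑ i ∈ Finset.Ico n 0, f i

/-- the height, normalised by `hgt y 0 0 = 0` -/
noncomputable def hgt (y : ℤ → ℤ → Lb) (x z : ℤ) : ℤ :=
  zs (fun i => dh (y i 0) (y (i + 1) 0)) x + zs (fun j => dh (y x j) (y x (j + 1))) z

/-- `h` is a height function of `y` -/
structure Ht (y : ℤ → ℤ → Lb) (h : ℤ → ℤ → ℤ) : Prop where
  hx : ∀ x z, h (x + 1) z = h x z + dh (y x z) (y (x + 1) z)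
  hz : ∀ x z, h x (z + 1) = h x z + dh (y x z) (y x (z + 1))

/-- `[p, e]` is (the part up to the last own cell of) a run of level `k` in the row `z`: either the run is `[p, e]`, or it is
`[p, ∞)` and `e` is its last cell with height `k`. -/
structure Bd (h : ℤ → ℤ → ℤ) (k z p e : ℤ) : Prop where
  le : p ≤ e
  left : h (p - 1) z = k + 1
  ins : ∀ x, p ≤ x → x ≤ e → h x z ≤ k
  own : h e z = k
  out : h (e + 1) z = k + 1 ∨ ∀ x, e < x → h x z < k

/-- the run is finite -/
def Fr (h : ℤ → ℤ → ℤ) (k z p e : ℤ) : Prop := p ≤ e ∧ h (p - 1) z = k + 1 ∧ h (e + 1) z = k + 1 ∧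
  ∀ x, p ≤ x → x ≤ e → h x z ≤ k

/-- modified increment of `gg false` at the level `k` -/
noncomputable def dg (y : ℤ → ℤ → Lb) (h : ℤ → ℤ → ℤ) (k z x : ℤ) : ℤ :=
  if h x z = k ∧ h (x + 1) z = k then lf (gg false (y x z)) (gg false (y (x + 1) z)) else 0

/-- the value of `G` at the left end minus the value at the right end -/
noncomputable def Dd (y : ℤ → ℤ → Lb) (h : ℤ → ℤ → ℤ) (k z p e : ℤ) : ℤ :=
  - ∑ x ∈ Finset.Ico p e, dg y h k z x

/-- The run `(p, z)` has a neighbour `(p', z + r)` (`r = 1` or `-1`). -/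
def Nx (h : ℤ → ℤ → ℤ) (k z p r p' : ℤ) : Prop := |p' - p| ≤ 1 ∧ ∃ e', Bd h k (z + r) p' e'

/-- the chain of neighbours in the direction `r` has at least `n` members -/
def Ch (h : ℤ → ℤ → ℤ) (k r : ℤ) : ℕ → ℤ → ℤ → Prop
  | 0, _, _ => True
  | n + 1, z, p => ∃ p', Nx h k z p r p' ∧ Ch h k r n (z + r) p'

/-- `(x, z)` is the left end of a run, and the chain of neighbours in the direction `r` is infinite -/
def Inf (h : ℤ → ℤ → ℤ) (r x z : ℤ) : Prop :=
  (∃ e, Bd h (h x z) z x e) ∧ ∀ n, Ch h (h x z) r n z x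

/-! ### The space of planar configurations -/

instance : MeasurableSpace Lb := ⊤

/-- planar configurations -/
abbrev Pc : Type := ℤ → ℤ → Lb

/-- the shift -/
def S (p q : ℤ) (y : Pc) : Pc := fun x z => y (x + p) (z + q)

open MeasureTheory in
/-- a law on the planar configurations -/
structure Law (ν : Measure Pc) : Prop where
  prob : IsProbabilityMeasure ν
  inv : ∀ p q, MeasurePreserving (S p q) ν ν
  erg : Ergodic (S 2 0) ν
  conf : ∀ᵐ y ∂ν, Conf y

/-! ### Pieces -/

/-- cells -/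
abbrev Cell : Type := ℤ × ℤ

/-- the `ℓ^1` norm -/
def n1 (v : Cell) : ℤ := |v.1| + |v.2|

/-- equal or adjacent (8 neighbours) -/
def Nb (u v : Cell) : Prop := |u.1 - v.1| ≤ 1 ∧ |u.2 - v.2| ≤ 1

/-- the cells outside `P` next to `P` have type `O` and the constant value `g` of `gg` -/
def Sur (P : Set Cell) (y : Cell → Lb) (g : Bool → ZMod 3) : Prop :=
  ∀ v, v ∉ P → (∃ u ∈ P, Nb u v) → Ou (y v) ∧ ∀ s, gg s (y v) = g s

/-- the block at `v` -/
def blk (y : Cell → Lb) (v : Cell) : Bool → Bool → Lb :=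
  fun i j => y (v + (if i then 1 else 0, if j then 1 else 0))

/-- the rules which touch `P` -/
structure Ru (P : Set Cell) (y : Cell → Lb) : Prop where
  br : ∀ (v : Cell) (i j : Bool), v + (if i then 1 else 0, if j then 1 else 0) ∈ P → BR (blk y v)
  er : ∀ v w : Cell, v ∈ P → w ∈ P → (w = v + (1, 0) ∨ w = v + (0, 1)) → ER (y v) (y w)
  vr : ∀ (v : Cell) (r : ℤ), v ∈ P → r = 1 ∨ r = -1 → In (y v) → Ou (y (v + (0, r))) →
    Ou (y (v + (1, 0))) ∨ Ou (y (v + (-1, 0)))
  up : ∀ (v : Cell) (s : Bool) (δ : ℤ), v ∈ P → |δ| ≤ 1 → In (y v) → Ou (y (v + (sg s, 0))) → In (y (v + (δ, -1))) →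
    Ou (y (v + (δ + sg s, -1))) → Step s (y v) (y (v + (δ, -1)))

/-- `P` with the labels `lam` is a valid piece -/
structure VP (P : Set Cell) (lam : Cell → Lb) : Prop where
  edge : ∀ v ∈ P, ∀ w, w ∉ P → Nb v w → In (lam v)
  rules : ∀ y g, (∀ v ∈ P, y v = lam v) → Sur P y g → Ru P y

/-! ### Parameters -/

/-- radius of the pieces of level `n` -/
def A : ℕ → ℕ
  | 0 => 2 ^ 12
  | n + 1 => 2 ^ (2 * n + 26) * A n
/-- distance of the walls to the centres -/
def Q (n : ℕ) : ℕ := 2 ^ (n + 6) * A n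
/-- radius of a bump -/
def R (n : ℕ) : ℕ := 2 ^ (n + 3) * Q n
/-- distance of the tips to the centres -/
def D (n : ℕ) : ℕ := 4 * R n
/-- distance of centres of the same level -/
def K (n : ℕ) : ℕ := 32 * D n
/-- length of the interval in which the tips are chosen -/
def Lg : ℕ → ℕ
  | 0 => 0
  | n + 1 => 3 * Lg n + 4 * D n + 4

/-- `F` is Lipschitz with constant `L` for the `ℓ^1` distance -/
def Lip (L : ℝ) (F : Cell → ℝ) : Prop :=
  ∀ v, |F (v + (1, 0)) - F v| ≤ L ∧ |F (v + (0, 1)) - F v| ≤ L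

/-- Lipschitz functions on the line -/
def Lz (L : ℝ) (f : ℤ → ℝ) : Prop := ∀ z, |f (z + 1) - f z| ≤ L

/-- the centres of one level are far from each other -/
def Sep (C : ℕ → Set Cell) : Prop :=
  ∀ m c c', c ∈ C m → c' ∈ C m → c = c' ∨ (K m : ℤ) < n1 (c - c')

/-- distance of the row `z` to the middle of the rows `-1` and `0` -/
def ab (z : ℤ) : ℤ := max z (-1 - z)

/-- the region with left wall `p`, right wall `q` and the rows `-2t-1 .. 2t` -/
def PS (t : ℤ) (p q : ℤ → ℤ) : Set Cell :=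
  {v | -2 * t - 1 ≤ v.2 ∧ v.2 ≤ 2 * t ∧ p v.2 ≤ v.1 ∧ v.1 ≤ q v.2}

/-- the shape of a piece of level `n` which avoids the centres `C` -/
structure Shp (n : ℕ) (C : ℕ → Set Cell) (t : ℤ) (p q : ℤ → ℤ) : Prop where
  t0 : (A n : ℤ) ≤ 8 * t
  t1 : 4 * t ≤ A n
  pl : ∀ z, |p (z + 1) - p z| ≤ 1
  ql : ∀ z, |q (z + 1) - q z| ≤ 1
  pb : ∀ z, p z ≤ -t + (ab z + 1) / 2
  qb : ∀ z, t - (ab z + 1) / 2 ≤ q z
  pa : ∀ z, -8 * t - A n ≤ 8 * p z
  qa : ∀ z, 8 * q z ≤ 8 * t + A n
  tp : p (2 * t) = 0 ∧ q (2 * t) = 0 ∧ p (-2 * t - 1) = 0 ∧ q (-2 * t - 1) = 0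
  dich : ∀ m, m < n → ∀ c ∈ C m, (∀ v, 2 * n1 (v - c) + 8 ≤ Q m → v ∈ PS t p q) ∨
    ∀ v, 2 * n1 (v - c) + 8 ≤ Q m → v ∉ PS t p q

/-! ### Stages -/

/-- the state of a cell: not yet covered, or (level, centre - cell, label) -/
abbrev St : Type := Option (ℕ × Cell × Lb)

/-- the piece with level `m` and centre `c` -/
def reg (η : Cell → St) (m : ℕ) (c : Cell) : Set Cell := {v | ∃ l, η v = some (m, c - v, l)}

/-- the label -/
def lab : St → Lb
  | none => (none, false, fun _ => (0, false, 0))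
  | some (_, _, l) => l

/-- the invariant of the construction before stage `n` -/
structure InvS (n : ℕ) (η : Cell → St) : Prop where
  lvl : ∀ v m u l, η v = some (m, u, l) → m < n ∧ n1 u ≤ A m
  sep : ∀ m c c', (reg η m c).Nonempty → (reg η m c').Nonempty → c = c' ∨ (K m : ℤ) < n1 (c - c')
  far : ∀ m c m' c', (m, c) ≠ (m', c') → ∀ v ∈ reg η m c, ∀ v' ∈ reg η m' c', 12 < n1 (v - v')
  vp : ∀ m c, VP (reg η m c) fun v => lab (η v)

/-- `(P, lam)` is a good piece of level `n` with centre `0` for the state `η` -/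
structure GP (n : ℕ) (η : Cell → St) (P : Set Cell) (lam : Cell → Lb) : Prop where
  ball : ∀ v, n1 v ≤ n → v ∈ P
  bdd : ∀ v ∈ P, n1 v ≤ A n
  ext : ∀ v ∈ P, ∀ m u l, η v = some (m, u, l) → lam v = l
  dich : ∀ m c, (∀ v ∈ reg η m c, ∀ w, n1 (w - v) ≤ 12 → w ∈ P) ∨
    ∀ v ∈ reg η m c, ∀ w, n1 (w - v) ≤ 12 → w ∉ P
  vp : VP P lam

/-- keep only the pieces with centre in the ball of radius `2 A n` -/
def crop (n : ℕ) (η : Cell → St) : Cell → St := fun v =>
  match η v with
  | none => none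
  | some (m, u, l) => if n1 (v + u) ≤ 2 * A n then some (m, u, l) else none

/-- shift -/
def shS (c : Cell) (η : Cell → St) : Cell → St := fun v => η (v + c)

open Classical in
/-- the chosen piece -/
noncomputable def pc (n : ℕ) (η : Cell → St) : Set Cell × (Cell → Lb) :=
  if h : ∃ P : Set Cell × (Cell → Lb), GP n η P.1 P.2 then h.choose else (∅, fun _ => lab none)

open Classical in
/-- stage `n`: new pieces around the cells of `Z` -/
noncomputable def nxt (n : ℕ) (Z : Set Cell) (η : Cell → St) : Cell → St := fun v =>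
  if h : ∃ c, c ∈ Z ∧ v - c ∈ (pc n (crop n (shS c η))).1 then
    some (n, h.choose - v, (pc n (crop n (shS h.choose η))).2 (v - h.choose))
  else η v

end SF
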