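import Pool.Agent.Helper33.SF.DynM

/-! # SF: the labelling of the planes (notes in Dyn0.lean) -/

set_option autoImplicit false

namespace SF

open EB

variable {X : Type} [MeasurableSpace X] {T : Cell → X → X} {Z : ℕ → Set X}

theorem plane (hT : Act X T) (hZ : SepX T Z) (hm : ∀ n, MeasurableSet (Z n)) :
    ∃ F : X → Lb, Ms F ∧ ∀ x, (∀ v N, ∃ n, N ≤ n ∧ T v x ∈ Z n) →
      Conf fun i j => F (T (i, j) x) := by
  sorry

end SF
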