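import Pool.Agent.Helper33.SF.Stage
import Pool.Agent.Helper27.EB.Defs

/-!
# SF: the construction on a space with an action of `Z^2`

PROOF NOTES.  `stg_eq`: by `nxt_shift`.  `stg_inv`: induction, `nxt_inv`.  Measurability: `stg (n+1) x` is determined by `stg n (T v x)` and `T v x ∈ Z n` for the finitely many `v` with `n1 v ≤ 4 A n` (`nxt_win`), i.e. it
factors through a map into a countable type (functions from a finite type to `St × Prop`) with measurable fibres (`Ms.pi`, `Ms.pair`, `Ms.comp` with a function chosen on the range).
The labelling: `F x` = the label of `stg n x` for the first `n` with `stg n x ≠ none` (any later `n` gives the same label, `nxt_keep`), default otherwise.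
`plane`: at the cell `w` take `n ≥ 8` with `T w x ∈ Z n`: the region of level `n`, centre `w` of the state `η = fun v => stg (n + 1) (T v x)` contains all `v` with `n1 (v - w) ≤ n` (`nxt_ball`); `InvS.vp`, with `y v = F (T v x)`
on the region and type `O`, `gg = 0` outside; then `loc_of_ru`.
-/

set_option autoImplicit false

namespace SF

open EB

/-- a free action of `Z^2` with measurable maps -/
structure Act (X : Type) [MeasurableSpace X] (T : Cell → X → X) : Prop where
  zero : ∀ x, T 0 x = x
  add : ∀ u v x, T (u + v) x = T u (T v x)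
  meas : ∀ v, Measurable (T v)

/-- the states -/
noncomputable def stg {X : Type} (T : Cell → X → X) (Z : ℕ → Set X) : ℕ → X → St
  | 0, _ => none
  | n + 1, x => nxt n {v | T v x ∈ Z n} (fun v => stg T Z n (T v x)) 0

/-- the centres on an orbit are far from each other -/
def SepX {X : Type} (T : Cell → X → X) (Z : ℕ → Set X) : Prop :=
  ∀ n x v, x ∈ Z n → T v x ∈ Z n → v = 0 ∨ (K n : ℤ) < n1 v

theorem loc_of_ru {P : Set Cell} {y : Cell → Lb} (h : Ru P y) (v : Cell)
    (hv : ∀ w, n1 (w - v) ≤ 3 → w ∈ P) : Loc fun i j => y (v.1 + i, v.2 + j) := by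
  sorry

variable {X : Type} [MeasurableSpace X] {T : Cell → X → X} {Z : ℕ → Set X}

theorem stg_inv (hT : Act X T) (hZ : SepX T Z) (n : ℕ) (x : X) :
    InvS n (fun v => stg T Z n (T v x)) := by
  sorry

theorem stg_eq (hT : Act X T) (hZ : SepX T Z) (n : ℕ) (x : X) (u : Cell) :
    stg T Z (n + 1) (T u x) = nxt n {v | T v x ∈ Z n} (fun v => stg T Z n (T v x)) u := by
  sorry

end SF
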