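import Pool.Agent.Helper33.SF.Prm

/-!
# SF: flattening a Lipschitz function near the centres

PROOF NOTES.  Process the levels `n - 1, ..., 0`.  Lipschitz constants `ℓ m = 1 - 2^(-?)...`: e.g. `ℓ n = 1/2`, `ℓ m = ℓ (m+1) + 2^(-m-2)` (`ℓ 0 ≤ 1`); so take `ℓ m = 1/2 + ∑_(m ≤ j < n) 2^(-j-2)`.
Step `m`: given `F` with constant `ℓ' = ℓ (m+1)`; for `c ∈ C m` let `r = n1 (v - c)`, `T = ℓ m * max 0 (r - 2 A m)`, and on `4 r ≤ Q m` replace `F v` by `max (min (F v) (F c + T)) (F c - T)`.  For `4 r ≥ Q m` (also a bit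
less) this is `F v`, since `|F v - F c| ≤ ℓ' r ≤ T` (`Q m = 2^(m+6) A m`, so `(ℓ m - ℓ') r ≥ 2^(-m-2) Q m / 4 ≥ 4 A m`).  By `Sep` each cell and its neighbours are in at most one such ball; all three functions
in the formula have constant `ℓ m`, so the new `F` has constant `ℓ m`.
Constancy: after step `m` the function is constant on `n1 (v - c) ≤ 2 A m`, `c ∈ C m`.  A later step `m' < m` at `c' ∈ C m'` changes `F` only on `4 n1 (v - c') ≤ Q m'`; if this ball meets `n1 (v - c) ≤ 2 A m - s`, `s ≥ Q m'`,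
then it is inside `n1 (v - c) ≤ 2 A m - s + Q m'`.  So after step `m'` the function is still constant on `n1 (v - c) ≤ 2 A m - ∑_(m' ≤ j < m) Q j` (a cell in the smaller ball whose value is changed lies in a ball around
`c'` contained in the larger ball, where `F` is constant, and there the formula does not change `F`).  At the end `sum_Q` : `2 A m - ∑_(j < m) Q j ≥ A m + 8`.
-/

set_option autoImplicit false

namespace SF

theorem flat (n : ℕ) (C : ℕ → Set Cell) (hC : Sep C) (F : Cell → ℝ) (hF : Lip (1 / 2) F) :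
    ∃ G : Cell → ℝ, Lip 1 G ∧
      (∀ v, (∀ m, m < n → ∀ c ∈ C m, (Q m : ℤ) < 4 * n1 (v - c)) → G v = F v) ∧
      ∀ m, m < n → ∀ c ∈ C m, ∀ v w, n1 (v - c) ≤ A m + 8 → n1 (w - c) ≤ A m + 8 → G v = G w := by
  sorry

end SF
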