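import Pool.Agent.Helper33.SF.RDefs

/-! # SF: blocks on the boundary of a piece (notes in RDefs.lean) -/

set_option autoImplicit false

namespace SF

variable {P : Set Cell} {lam : Cell → Lb} {t : ℤ} {p q : ℤ → ℤ} {cov : Cell → Prop}
  {kid : Cell → Set Cell} {G : Bool → Cell → ℝ}

/-- blocks which meet `P` and its complement -/
theorem Pd.br_out (h : Pd P lam t p q cov kid G) {y : Cell → Lb} {g : Bool → ZMod 3}
    (hy : ∀ v ∈ P, y v = lam v) (hs : Sur P y g) {v : Cell}
    (h1 : ∃ i j : Bool, v + (if i then 1 else 0, if j then 1 else 0) ∈ P)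
    (h2 : ∃ i j : Bool, v + (if i then 1 else 0, if j then 1 else 0) ∉ P) : BR (blk y v) := by
  sorry

end SF
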