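import Pool.Agent.Helper33.SF.RDefs

/-! # SF: the clock rule (notes in RDefs.lean) -/

set_option autoImplicit false

namespace SF

variable {P : Set Cell} {lam : Cell → Lb} {t : ℤ} {p q : ℤ → ℤ} {cov : Cell → Prop}
  {kid : Cell → Set Cell} {G : Bool → Cell → ℝ}

theorem Pd.ru_up (h : Pd P lam t p q cov kid G) {y : Cell → Lb} {g : Bool → ZMod 3}
    (hy : ∀ v ∈ P, y v = lam v) (hs : Sur P y g) (v : Cell) (s : Bool) (δ : ℤ) (hv : v ∈ P)
    (hδ : |δ| ≤ 1) (h1 : In (y v)) (h2 : Ou (y (v + (sg s, 0)))) (h3 : In (y (v + (δ, -1))))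
    (h4 : Ou (y (v + (δ + sg s, -1)))) : Step s (y v) (y (v + (δ, -1))) := by
  sorry

end SF
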