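import Pool.Agent.Helper33.SF.RIn
import Pool.Agent.Helper33.SF.ROut
import Pool.Agent.Helper33.SF.RUp

/-! # SF: all rules for a piece (notes in RDefs.lean) -/

set_option autoImplicit false

namespace SF

variable {P : Set Cell} {lam : Cell → Lb} {t : ℤ} {p q : ℤ → ℤ} {cov : Cell → Prop}
  {kid : Cell → Set Cell} {G : Bool → Cell → ℝ}

theorem Pd.ru_br (h : Pd P lam t p q cov kid G) {y : Cell → Lb} {g : Bool → ZMod 3}
    (hy : ∀ v ∈ P, y v = lam v) (hs : Sur P y g) (v : Cell) (i j : Bool)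
    (h1 : v + (if i then 1 else 0, if j then 1 else 0) ∈ P) : BR (blk y v) := by
  sorry

theorem Pd.ru_er (h : Pd P lam t p q cov kid G) {y : Cell → Lb} {g : Bool → ZMod 3}
    (hy : ∀ v ∈ P, y v = lam v) (hs : Sur P y g) (v w : Cell) (hv : v ∈ P) (hw : w ∈ P)
    (h1 : w = v + (1, 0) ∨ w = v + (0, 1)) : ER (y v) (y w) := by
  sorry

theorem Pd.ru_vr (h : Pd P lam t p q cov kid G) {y : Cell → Lb} {g : Bool → ZMod 3}
    (hy : ∀ v ∈ P, y v = lam v) (hs : Sur P y g) (v : Cell) (r : ℤ) (hv : v ∈ P)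
    (hr : r = 1 ∨ r = -1) (h1 : In (y v)) (h2 : Ou (y (v + (0, r)))) :
    Ou (y (v + (1, 0))) ∨ Ou (y (v + (-1, 0))) := by
  sorry

theorem Pd.vp (h : Pd P lam t p q cov kid G) : VP P lam where
  edge := h.edge
  rules _ _ hy hs := ⟨h.ru_br hy hs, h.ru_er hy hs, h.ru_vr hy hs, h.ru_up hy hs⟩

end SF
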