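import Pool.Agent.Helper33.SF.Shape
import Pool.Agent.Helper33.SF.Flat
import Pool.Agent.Helper33.SF.Rules

/-!
# SF: the extension lemma

PROOF NOTES.  `C m = {c | (reg η m c).Nonempty}` for `m < n` and `∅` for `m ≥ n` is `Sep` by `InvS.sep`.  `exists_shp` gives `t p q`, `P = PS t p q`.  A region of level `m` lies in `n1 (v - c) ≤ A m`; `dich` of
`GP`: `2 (A m + 12) + 8 ≤ Q m`.  The functions `F false v = max 0 ((2 t - ab v.2) / 64 - max 0 (v.1 - p v.2 - 2) / 4)` and `F true v` = the same with `q v.2 - v.1` are `Lip (1/2)`; `flat` gives `G false`, `G true`.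
Cells of `P` whose distance (`ℓ^1`) to the complement of `P` is `≤ 4` are not in the balls `4 n1 (v - c) ≤ Q m` (by `dich` of `Shp` such a ball with a margin is inside or outside of `P`), so `G = F` there.
Labels of `v ∈ P`: `lam v = lab (η v)` if `η v ≠ none`; otherwise `tt = some true` if `v` has a neighbour (`Nb`) outside of `P`; else `some false` if `v` has a neighbour `w` with `η w ≠ none`; else `none`;
`bb = decide (Even (v.1 + v.2))`; `gg s = ⌊G s v⌋`; `ph s = decide (v.2 < 0)`; `ck s = 2 t - v.2` if `0 ≤ v.2`, else `-2 t - 2 - v.2` (in `ZMod 64`).  See Rules.lean for the rest.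
-/

set_option autoImplicit false

namespace SF

theorem ext_piece (n : ℕ) (η : Cell → St) (h : InvS n η) :
    ∃ (P : Set Cell) (lam : Cell → Lb), GP n η P lam := by
  sorry

end SF
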