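import Pool.Agent.Helper33.SF.LiftE

/-!
# SF: the shift

PROOF NOTES.  `FP d` is a countable intersection of open sets in the compact space `Om d`, so it is a `BaireSpace` (`IsGδ.baireSpace_of_t2Space_locallyCompactSpace`); standard Borel because it is measurable (`EB.FP_meas`).
-/

set_option autoImplicit false

namespace SF

open EB BM

theorem baire_shift {d : ℕ} (hd : 2 ≤ d) : BaireSol d (lclS (5 ^ d + 1)) := by
  sorry

end SF
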