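import Pool.Agent.Helper33.SF.LiftN
import Pool.Agent.Helper33.SF.Shf

/-!
# SF: the theorem
-/

set_option autoImplicit false

namespace SF

open EB BM MeasureTheory

theorem main (d : ℕ) (hd : 2 ≤ d) :
    (∀ (X : Type) [MeasurableSpace X] [StandardBorelSpace X] [TopologicalSpace X]
      [SecondCountableTopology X] [BaireSpace X] [BorelSpace X] (a : FreeAct d X),
      BaireSolA a (lclS (5 ^ d + 1))) ∧
    BaireSol d (lclS (5 ^ d + 1)) ∧ ¬ BernSol d (lclS (5 ^ d + 1)) ∧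
    ¬ MeasSol d (lclS (5 ^ d + 1)) ∧ ¬ BorelSol (fshift d) (lclS (5 ^ d + 1)) ∧
    ∀ (μ : Measure (Om d)) [IsProbabilityMeasure μ], Erg2 μ → ¬ SolFor d μ (lclS (5 ^ d + 1)) := by
  have h1 : ¬ BernSol d (lclS (5 ^ d + 1)) := no_solS hd (bern d) (erg2_bern d)
  have h2 : ¬ MeasSol d (lclS (5 ^ d + 1)) := fun h => h1 (bern_of_meas _ h)
  exact ⟨fun X _ _ _ _ _ _ a => baire_all hd a, baire_shift hd, h1, h2,
    fun h => h2 (meas_of_borel _ h), fun μ _ h => no_solS hd μ h⟩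

end SF
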