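import Pool.Agent.Helper27.EB.Col

/-!
# SF: generic sparse sets of centres

PROOF NOTES.  `window_col` with `N = K n` gives `c n : X → ℕ`.  `Z n = {x | c n x = z n}` for numbers `z n` chosen as follows.  Enumerate all pairs `(g, B)`, `B` a nonempty set of a countable basis, such that each pair
occurs for infinitely many `n`.  If `n` belongs to `(g, B)`, choose `z n` such that `{x | c n (T g x) = z n} ∩ B` is not meagre (`B` is not meagre, `BaireSpace`, countable union over the values).
For `g`, `N` the Borel set `U = {x | ∃ n ≥ N, T g x ∈ Z n}` is residual: otherwise `Uᶜ` is (mod meagre) a nonempty open set (`MeasurableSet.baireMeasurableSet`, `BaireMeasurableSet.residualEq_isOpen`), which contains a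
nonempty basic `B`; `B ∩ U` would be meagre, but some `n ≥ N` belongs to `(g, B)`.  (If `X` is empty all is trivial.)
-/

set_option autoImplicit false

namespace SF

open EB

theorem gen {d : ℕ} {X : Type} [MeasurableSpace X] [StandardBorelSpace X] [TopologicalSpace X]
    [SecondCountableTopology X] [BaireSpace X] [BorelSpace X] (a : FreeAct d X) (K : ℕ → ℕ) :
    ∃ Z : ℕ → Set X, (∀ n, MeasurableSet (Z n)) ∧
      (∀ n x g, x ∈ Z n → a.T g x ∈ Z n → g = 0 ∨ ¬ nb (K n) g) ∧
      {x | ∀ g N, ∃ n, N ≤ n ∧ a.T g x ∈ Z n} ∈ residual X := by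
  sorry

end SF
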