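import Pool.Agent.Helper33.SF.Chain

/-!
# SF: no half-infinite runs

PROOF NOTES.  `V = {y | hgt y (-1) 0 = 1 ∧ ∀ x ≥ 0, hgt y x 0 ≤ 0}`.  By Poincare recurrence for `S 1 0` (`MeasurePreserving.conservative`) a.e. `y ∈ V` has `n ≥ 1` with
`S n 0 y ∈ V`, that is `hgt y (n - 1) 0 = hgt y n 0 + 1` and `hgt y x 0 ≤ hgt y n 0` for `x ≥ n`; since `hgt y (n - 1) 0 ≤ 0` all cells `x ≥ n` have height `< 0`.  Let `e < n` be the last
cell with height `0`: `Bd (hgt y) 0 0 0 e` with a half-infinite run, `nx_half` gives an infinite chain: `Inf (hgt y) (-1) 0 0`, null by `chain_null`.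
-/

set_option autoImplicit false

namespace SF

open MeasureTheory EB

/-- a half-infinite run starts at the origin -/
private def Vh : Set Pc := {y | hgt y (-1) 0 = 1 ∧ ∀ x : ℤ, 0 ≤ x → hgt y x 0 ≤ 0}

private theorem me_Vh : MeasurableSet Vh := by
  have h : Vh = {y : Pc | hgt y (-1) 0 = 1} ∩ ⋂ x : ℤ, {y : Pc | 0 ≤ x → hgt y x 0 ≤ 0} := by
    ext y
    simp [Vh]
  rw [h]
  refine (ms_hgt (-1) 0 1).inter (MeasurableSet.iInter fun x => ?_)
  by_cases hx : 0 ≤ x
  · have h2 : {y : Pc | 0 ≤ x → hgt y x 0 ≤ 0} = {y : Pc | hgt y x 0 ∈ Set.Iic (0 : ℤ)} := by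
      ext y
      simp [hx]
    rw [h2]
    exact (ms_hgt x 0).set _
  · have h2 : {y : Pc | 0 ≤ x → hgt y x 0 ≤ 0} = Set.univ := by
      ext y
      simp [hx]
    rw [h2]
    exact MeasurableSet.univ

private theorem S_iter (n : ℕ) (y : Pc) : (S 1 0)^[n] y = S n 0 y := by
  induction n generalizing y with
  | zero =>
    funext x z
    simp [S]
  | succ n ih =>
    rw [Function.iterate_succ_apply, ih]
    funext x z
    simp only [S]
    congr 1 <;> push_cast <;> ring

private theorem ch_half {y : Pc} (hy : Conf y) (hh : Ht y (hgt y)) {k r : ℤ} (hr : r = 1 ∨ r = -1) (n : ℕ) :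
    ∀ z p e : ℤ, Bd (hgt y) k z p e → (∀ x, e < x → hgt y x z < k) → Ch (hgt y) k r n z p := by
  induction n with
  | zero =>
    intro z p e _ _
    trivial
  | succ n ih =>
    intro z p e hb hf
    obtain ⟨p', e', hp, hb', hf'⟩ := nx_half hy hh hr hb hf
    exact ⟨p', ⟨hp, e', hb'⟩, ih _ _ _ hb' hf'⟩

private theorem inf_of_Vh {y : Pc} (hy : Conf y) (h0 : y ∈ Vh) {n : ℕ} (hn : 1 ≤ n)
    (h1 : S n 0 y ∈ Vh) : Inf (hgt y) (-1) 0 0 := by
  have hh := ht_hgt hy
  have hz : hgt y 0 0 = 0 := hgt_zero y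
  obtain ⟨ha, hb⟩ := h0
  obtain ⟨hc, hd⟩ := h1
  rw [hgt_S hy] at hc
  have e1 : (-1 : ℤ) + (n : ℤ) = (n : ℤ) - 1 := by ring
  have e2 : (0 : ℤ) + 0 = 0 := by ring
  rw [e1, e2] at hc
  have hn1 : hgt y ((n : ℤ) - 1) 0 ≤ 0 := hb _ (by omega)
  have hlow : ∀ x : ℤ, (n : ℤ) ≤ x → hgt y x 0 < 0 := by
    intro x hx
    have h2 := hd (x - n) (by omega)
    rw [hgt_S hy] at h2
    have e3 : x - (n : ℤ) + (n : ℤ) = x := by ring
    rw [e3, e2] at h2
    omega
  -- the last cell with height 0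
  obtain ⟨e, he, hmax⟩ : ∃ e : ℤ, (0 ≤ e ∧ hgt y e 0 = 0) ∧ ∀ x : ℤ, (0 ≤ x ∧ hgt y x 0 = 0) → x ≤ e := by
    apply Int.exists_greatest_of_bdd
    · refine ⟨n, fun z hz' => ?_⟩
      by_contra hcon
      have := hlow z (by omega)
      omega
    · exact ⟨0, le_refl _, hz⟩
  have hout : ∀ x, e < x → hgt y x 0 < 0 := by
    intro x hx
    have h2 := hb x (by omega)
    rcases lt_or_eq_of_le h2 with h3 | h3
    · exact h3
    · have := hmax x ⟨by omega, h3⟩
      omega
  have hbd : Bd (hgt y) 0 0 0 e :=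
    { le := he.1
      left := by
        have e4 : (0 : ℤ) - 1 = -1 := by ring
        rw [e4, ha]
        ring
      ins := fun x hx _ => hb x hx
      own := he.2
      out := Or.inr hout }
  refine ⟨⟨e, ?_⟩, fun m => ?_⟩
  · rw [hz]
    exact hbd
  · rw [hz]
    exact ch_half hy hh (Or.inr rfl) m 0 0 e hbd hout

private theorem ae_not_Vh {ν : Measure Pc} (hν : Law ν) : ∀ᵐ y ∂ν, y ∉ Vh := by
  have := hν.prob
  have hc : Conservative (S 1 0) ν := (hν.inv 1 0).conservative
  have h1 := hc.ae_mem_imp_frequently_image_mem (me_Vh.nullMeasurableSet (μ := ν))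
  filter_upwards [h1, hν.conf, chain_null hν (r := -1) (Or.inr rfl)] with y hy1 hy2 hy3 hy
  obtain ⟨n, hn, hn2⟩ := (Filter.frequently_atTop.1 (hy1 hy)) 1
  rw [S_iter] at hn2
  exact hy3 0 0 (inf_of_Vh hy2 hy hn hn2)

theorem no_half {ν : Measure Pc} (hν : Law ν) :
    ∀ᵐ y ∂ν, ∀ x z k, ¬ (hgt y (x - 1) z = k + 1 ∧ ∀ x', x ≤ x' → hgt y x' z ≤ k) := by
  have h1 : ∀ᵐ y ∂ν, ∀ x z : ℤ, S x z y ∉ Vh := by
    rw [ae_all_iff]
    intro x
    rw [ae_all_iff]
    intro z
    exact (hν.inv x z).quasiMeasurePreserving.ae (ae_not_Vh hν)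
  filter_upwards [h1, hν.conf] with y hy hc x z k hk
  obtain ⟨ha, hb⟩ := hk
  have hh := ht_hgt hc
  have h2 := hb x le_rfl
  have h3 := hh.dx (x - 1) z
  have e1 : x - 1 + 1 = x := by ring
  rw [e1, abs_le] at h3
  have h4 : hgt y x z = k := by omega
  refine hy x z ⟨?_, fun x' hx' => ?_⟩
  · rw [hgt_S hc]
    have e2 : (-1 : ℤ) + x = x - 1 := by ring
    have e3 : (0 : ℤ) + z = z := by ring
    rw [e2, e3, ha, h4]
    ring
  · rw [hgt_S hc]
    have e3 : (0 : ℤ) + z = z := by ring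
    rw [e3, h4]
    have := hb (x' + x) (by omega)
    omega

private theorem sw_sw (l : Lb) : sw (sw l) = l := by
  obtain ⟨a, b, f⟩ := l
  simp [sw]

private theorem mir_mir (y : Pc) : mir (mir y) = y := by
  funext x z
  simp [mir, sw_sw]

/-- the mirror image as an equivalence -/
private def mirE : Pc ≃ᵐ Pc where
  toFun := mir
  invFun := mir
  left_inv := mir_mir
  right_inv := mir_mir
  measurable_toFun := measurable_mir
  measurable_invFun := measurable_mir

private theorem S_mir (p q : ℤ) (y : Pc) : S p q (mir y) = mir (S (-p) q y) := by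
  funext x z
  simp only [S, mir]
  congr 2
  ring

private theorem S_S (p q p' q' : ℤ) (y : Pc) : S p q (S p' q' y) = S (p + p') (q + q') y := by
  funext x z
  simp only [S]
  congr 1 <;> ring

private theorem S_zz (y : Pc) : S 0 0 y = y := by
  funext x z
  simp [S]

theorem law_mir {ν : Measure Pc} (hν : Law ν) : Law (ν.map mir) := by
  have := hν.prob
  have hinv : ∀ p q, MeasurePreserving (S p q) (ν.map mir) (ν.map mir) := by
    intro p q
    refine ⟨measurable_S p q, ?_⟩
    rw [Measure.map_map (measurable_S p q) measurable_mir]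
    have h1 : (S p q) ∘ (mir : Pc → Pc) = mir ∘ (S (-p) q) := by
      funext y
      exact S_mir p q y
    rw [h1, ← Measure.map_map measurable_mir (measurable_S (-p) q), (hν.inv (-p) q).map_eq]
  refine ⟨Measure.isProbabilityMeasure_map measurable_mir.aemeasurable, hinv, ?_, ?_⟩
  · refine { toMeasurePreserving := hinv 2 0, toPreErgodic := ⟨fun s hs hs2 => ?_⟩ }
    have ht : MeasurableSet (mir ⁻¹' s : Set Pc) := measurable_mir hs
    have ht2 : (S 2 0) ⁻¹' (mir ⁻¹' s : Set Pc) = mir ⁻¹' s := by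
      ext y
      have h1 : mir (S 2 0 y) = S (-2) 0 (mir y) := by
        rw [S_mir]
        norm_num
      have h2 : S 2 0 (S (-2) 0 (mir y)) = mir y := by
        rw [S_S]
        norm_num
        exact S_zz _
      change mir (S 2 0 y) ∈ s ↔ mir y ∈ s
      rw [h1]
      constructor
      · intro h
        rw [← hs2] at h
        change S 2 0 (S (-2) 0 (mir y)) ∈ s at h
        rwa [h2] at h
      · intro h
        rw [← hs2]
        change S 2 0 (S (-2) 0 (mir y)) ∈ s
        rwa [h2]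
    have h3 := hν.erg.aeconst_set ht ht2
    rw [Filter.eventuallyConst_set] at h3 ⊢
    rcases h3 with h3 | h3
    · left
      exact (ae_map_iff (p := fun x => x ∈ s) measurable_mir.aemeasurable hs).2 h3
    · right
      exact (ae_map_iff (p := fun x => x ∉ s) measurable_mir.aemeasurable hs.compl).2 h3
  · have h1 : ∀ᵐ y ∂(ν.map mirE), Conf y := by
      rw [mirE.measurableEmbedding.ae_map_iff]
      filter_upwards [hν.conf] with y hy
      exact hy.mir
    exact h1

end SF
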