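import Pool.Agent.Helper33.SF.Defs

/-!
# SF: heights

PROOF NOTES.  `dh a b = 1` iff `In a ∧ Ou b`, `-1` iff `Ou a ∧ In b`, else `0` (In and Ou exclude each other).
`ht_hgt`: only the column step is by definition; for the row step at height `z` use induction on `z` (`Int.induction_on`) and the block
identity `dh(a,b) + dh(b,d) = dh(a,c) + dh(c,d)` for the blocks of `y` (by `BR.full`: if the block has an `I` and an `O` then all four
cells are `I` or `O` and `dh a b = pot b - pot a`; otherwise all `dh` are `0`).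
`Ht.blk`: the same case distinction.
-/

set_option autoImplicit false

namespace SF

theorem zs_zero (f : ℤ → ℤ) : zs f 0 = 0 := by
  simp [zs]

theorem zs_succ (f : ℤ → ℤ) (n : ℤ) : zs f (n + 1) = zs f n + f n := by
  sorry

theorem ht_hgt {y : ℤ → ℤ → Lb} (hy : Conf y) : Ht y (hgt y) := by
  sorry

theorem hgt_zero (y : ℤ → ℤ → Lb) : hgt y 0 0 = 0 := by
  simp [hgt, zs_zero]

/-- two height functions differ by a constant -/
theorem Ht.uniq {y : ℤ → ℤ → Lb} {h h' : ℤ → ℤ → ℤ} (hh : Ht y h) (hh' : Ht y h') (x z : ℤ) :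
    h x z - h 0 0 = h' x z - h' 0 0 := by
  sorry

theorem Conf.S {y : ℤ → ℤ → Lb} (hy : Conf y) (p q : ℤ) : Conf (SF.S p q y) := by
  sorry

theorem hgt_S {y : ℤ → ℤ → Lb} (hy : Conf y) (p q x z : ℤ) :
    hgt (S p q y) x z = hgt y (x + p) (z + q) - hgt y p q := by
  sorry

/-- Note: the block at `(x, z)` of `mir y` is the mirrored block at `(-x - 1, z)` of `y`. -/
theorem Conf.mir {y : ℤ → ℤ → Lb} (hy : Conf y) : Conf (SF.mir y) := by
  sorry

theorem hgt_mir {y : ℤ → ℤ → Lb} (hy : Conf y) (x z : ℤ) : hgt (mir y) x z = hgt y (-x) z := by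
  sorry

section

variable {y : ℤ → ℤ → Lb} {h : ℤ → ℤ → ℤ}

theorem Ht.xI (hh : Ht y h) {x z : ℤ} (h1 : h (x + 1) z = h x z + 1) : In (y x z) ∧ Ou (y (x + 1) z) := by
  sorry

theorem Ht.xO (hh : Ht y h) {x z : ℤ} (h1 : h (x + 1) z = h x z - 1) : Ou (y x z) ∧ In (y (x + 1) z) := by
  sorry

theorem Ht.zI (hh : Ht y h) {x z : ℤ} (h1 : h x (z + 1) = h x z + 1) : In (y x z) ∧ Ou (y x (z + 1)) := by
  sorry

theorem Ht.zO (hh : Ht y h) {x z : ℤ} (h1 : h x (z + 1) = h x z - 1) : Ou (y x z) ∧ In (y x (z + 1)) := by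
  sorry

theorem Ht.dx (hh : Ht y h) (x z : ℤ) : |h (x + 1) z - h x z| ≤ 1 := by
  sorry

theorem Ht.dz (hh : Ht y h) (x z : ℤ) : |h x (z + 1) - h x z| ≤ 1 := by
  sorry

/-- `0` or `1` -/
def cc (i : Bool) : ℤ := if i then 1 else 0

/-- Each block has one height and does not contain both types, or two heights `m` (the cells of type `I`) and `m + 1`
(the cells of type `O`). -/
theorem Ht.blk (hy : Conf y) (hh : Ht y h) (x z : ℤ) :
    ((∀ i j : Bool, h (x + cc i) (z + cc j) = h x z) ∧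
      ¬ ((∃ i j : Bool, In (y (x + cc i) (z + cc j))) ∧ ∃ i j : Bool, Ou (y (x + cc i) (z + cc j)))) ∨
    ∃ m, ∀ i j : Bool, (h (x + cc i) (z + cc j) = m ∧ In (y (x + cc i) (z + cc j))) ∨
      (h (x + cc i) (z + cc j) = m + 1 ∧ Ou (y (x + cc i) (z + cc j))) := by
  sorry

/-- rule VR in terms of heights -/
theorem Ht.vr (hy : Conf y) (hh : Ht y h) {x z r : ℤ} (hr : r = 1 ∨ r = -1)
    (h1 : h x (z + r) = h x z + 1) : h (x + 1) z = h x z + 1 ∨ h (x - 1) z = h x z + 1 := by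
  sorry

/-- rule `nodiag` in terms of heights: no block with the heights `k` and `k + 1` on the two diagonals -/
theorem Ht.nd (hy : Conf y) (hh : Ht y h) {x z s r k : ℤ} (hs : s = 1 ∨ s = -1) (hr : r = 1 ∨ r = -1)
    (h1 : h x z = k) (h2 : h (x + s) z = k + 1) (h3 : h x (z + r) = k + 1) :
    h (x + s) (z + r) = k + 1 := by
  sorry

end

end SF
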