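import Pool.Agent.Helper33.SF.Defs
import Pool.Agent.Helper20.BM.Dec

/-!
# SF: the LCL problem

Labels: a colour, four pointers (colours of the neighbours in the directions `(1, 0)`, `(-1, 0)`, `(0, 1)`, `(0, -1)` of a plane), a planar label.
-/

set_option autoImplicit false

namespace SF

open EB BM

/-- labels -/
abbrev LabS (K : ℕ) : Type := Fin K × (Bool → Bool → Fin K) × Lb

/-- the direction `(b, s)` -/
def dc (b s : Bool) : Cell := if b then (0, sg s) else (sg s, 0)

/-- `φ` is a chart of the ball of radius `2` around the root -/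
structure Chart {K : ℕ} (G : RG (LabS K)) (φ : ℤ → ℤ → G.V) : Prop where
  root : φ 0 0 = G.root
  adj : ∀ i j b s, |i| + |j| ≤ 1 → G.graph.Adj (φ i j) (φ (i + (dc b s).1) (j + (dc b s).2))
  ptr : ∀ i j b s, |i| + |j| ≤ 1 →
    (G.lab (φ (i + (dc b s).1) (j + (dc b s).2))).1 = (G.lab (φ i j)).2.1 b s
  o1 : Opp G (φ 1 0) (φ (-1) 0)
  o2 : Opp G (φ 0 1) (φ 0 (-1))
  loc : Loc fun i j => (G.lab (φ i j)).2.2

/-- The LCL problem (radius `2`). -/
def lclS (K : ℕ) : LCL (LabS K) where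
  r := 2
  P G := (∀ u w, G.graph.Adj G.root u → G.graph.Adj G.root w → (G.lab u).1 = (G.lab w).1 → u = w) ∧
    (∀ b s b' s', (G.lab G.root).2.1 b s = (G.lab G.root).2.1 b' s' → b = b' ∧ s = s') ∧
    ∃ φ, Chart G φ
  iso := by
    sorry

/-- `(e, f)` are the directions of the plane at `g` -/
structure Dr {d K : ℕ} (y : Gd d → LabS K) (g e f : Gd d) : Prop where
  ue : Un e
  uf : Un f
  ne1 : e ≠ f
  ne2 : e ≠ -f
  p1 : (y (g + e)).1 = (y g).2.1 false true
  p2 : (y (g - e)).1 = (y g).2.1 false false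
  p3 : (y (g + f)).1 = (y g).2.1 true true
  p4 : (y (g - f)).1 = (y g).2.1 true false

end SF
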