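import Pool.Agent.Helper33.SF.DecE
import Pool.Agent.Helper33.SF.Dyn
import Pool.Agent.Helper33.SF.Gen
import Pool.Agent.Helper27.EB.Final
import Pool.Agent.Helper27.EB.Greedy

/-!
# SF: the generic solution

PROOF NOTES.  `T v = a.T (v.1 • un i0 + v.2 • un i1)` is an `Act`; `gen` with `K n` gives `Z`, `SepX T Z` (if not `nb (K n) g` then `n1 v > K n`).  `C = {x | ∀ g N, ∃ n ≥ N, a.T g x ∈ Z n}` is invariant, Borel, residual.  `plane` gives `F`.
`exists_greedy` with `N = 2`, `Z = univ`, degree bound `5 ^ d` (the number of `g` with `nb 2 g`) and the colouring of `window_col` gives `κ : X → Fin (5 ^ d + 1)` with different colours at distance `nb 2`.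
Label: `(κ x, (b, s) ↦ κ (a.T (sg s • un (if b then i1 else i0)) x), F x)`.  `EB.sol_iff` and `allowed_of`.
-/

set_option autoImplicit false

namespace SF

open EB BM

/-- A Baire-measurable solution for an action: a Borel solution on an invariant comeagre Borel set. -/
def BaireSolA {d : ℕ} {X S : Type} [MeasurableSpace X] [TopologicalSpace X] (a : FreeAct d X)
    (L : LCL S) : Prop :=
  ∃ C, MeasurableSet C ∧ Inv a C ∧ C ∈ residual X ∧ BorelSolOn a L C

theorem baire_all {d : ℕ} (hd : 2 ≤ d) {X : Type} [MeasurableSpace X] [StandardBorelSpace X]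
    [TopologicalSpace X] [SecondCountableTopology X] [BaireSpace X] [BorelSpace X]
    (a : FreeAct d X) : BaireSolA a (lclS (5 ^ d + 1)) := by
  sorry

end SF
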