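import Pool.Agent.Helper33.SF.Meas

/-!
# SF: no infinite nest of finite runs (mass transport on the line)

PROOF NOTES.  For `M : ℕ` let `f y x` (mass from `0` to `x`) be `∑ over finite runs [p, e] of level k = hgt y x 0 < hgt y 0 0 + M, k ≥ hgt y 0 0, in the row 0 with 0, x ∈ [p, e], of 1 / own`,
`own = card {x ∈ [p, e] | h = k}`, restricted to the `y` with `Conf y`, (own inequality at all positions) and the event `B` below, both shift invariant.  `B`: each `k ≥ hgt y 0 0` has a
finite run of level `k` around `0`.  On `B` the mass sent is `M`.  The mass received at `0` comes only from the run of level `hgt y 0 0` around `0`: `≤ len / own ≤ 128`.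
`∫ ∑_x f y x = ∑_x ∫ f y x = ∑_x ∫ f (S (-x) 0 y) x = ∫ ∑_x f (S (-x) 0 y) x ≤ 128`, so `M ν(B) ≤ 128` for all `M`.
-/

set_option autoImplicit false

namespace SF

open MeasureTheory EB

theorem no_nest {ν : Measure Pc} (hν : Law ν)
    (hown : ∀ᵐ y ∂ν, ∀ k p e, Fr (hgt y) k 0 p e →
      e - p + 1 ≤ 128 * (((Finset.Icc p e).filter fun x => hgt y x 0 = k).card : ℤ)) :
    ∀ᵐ y ∂ν, ¬ ∀ k, hgt y 0 0 ≤ k → ∃ p e, p ≤ 0 ∧ 0 ≤ e ∧ Fr (hgt y) k 0 p e := by
  sorry

end SF
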