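import Pool.Agent.Helper33.SF.Step

/-!
# SF: the row inequality

PROOF NOTES.  The chain above `(p, z)` is finite: there is `N` and left ends `p_j` of finite runs in the rows `z + j`, `j ≤ N`, and the row `z + N` is a tip
(`nx_or_tip`), so `e_N ≤ p_N + 1`, `Dd = 0` there, and `e - p + 1 ≤ 2 N + 2` by `nx_end`.  If `ph false (y p z) = false` then all phases above are `false`
and `bd_psi` gives `psi false` at `(p, z)` = `psi false` at the tip `+ N`, so `64 Dd ≥ N - 63`, and by `abs_Dd_lt` `N + 1 ≤ 64 * own`.  If the phase is `true` use the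
chain below (all phases `true`).  Induct over the length of the chain, e.g. prove: for all `n p e z`, if `¬ Ch h k 1 n z p` then ...
-/

set_option autoImplicit false

namespace SF

variable {y : ℤ → ℤ → Lb} {h : ℤ → ℤ → ℤ}

theorem own_ineq (hy : Conf y) (hh : Ht y h) {k z p e : ℤ} (hf : Fr h k z p e)
    (hu : ¬ Inf h 1 p z) (hd : ¬ Inf h (-1) p z) :
    e - p + 1 ≤ 128 * (((Finset.Icc p e).filter fun x => h x z = k).card : ℤ) := by
  sorry

end SF
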