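import Pool.Agent.Helper33.SF.Run

/-!
# SF: parity

PROOF NOTES.  Two adjacent cells with the same height have different `bb` (rules `er1`, `er2`).  `run_parity`: induction on the length of the chain above (for all `n`, if
`¬ Ch h k 1 n z p` ...).  Tip: the cells `(p-1, z), (p-1, z+1), (p, z+1), ..., (e+1, z+1), (e+1, z)` have height `k + 1` (`Ht.nd` for the corners).
Step: the run `[p', e']` above: the cells `(p-1, z)` and `(p'-1, z+1)` are joined by a path of one or two edges through cells with height `k + 1`:
`p' = p`: one edge; `p' = p + 1`: via `(p - 1, z + 1)`; `p' = p - 1`: via `(p - 2, z)` (both `Ht.nd`).  The same on the right side.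
`row_parity`: induction on the distance; consecutive cells with height `K` are adjacent or the two outer neighbours of a finite run of level `K - 1`.
-/

set_option autoImplicit false

namespace SF

variable {y : ℤ → ℤ → Lb} {h : ℤ → ℤ → ℤ}

theorem run_parity (hy : Conf y) (hh : Ht y h) {k z p e : ℤ} (hf : Fr h k z p e)
    (hu : ¬ Inf h 1 p z) : (bb (y (p - 1) z) = bb (y (e + 1) z) ↔ Even (e - p)) := by
  sorry

theorem row_parity (hy : Conf y) (hh : Ht y h) {K z : ℤ} (hK : ∀ x, h x z ≤ K)
    (hu : ∀ x, ¬ Inf h 1 x z) {x x' : ℤ} (h1 : h x z = K) (h2 : h x' z = K) :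
    (bb (y x z) = bb (y x' z) ↔ Even (x' - x)) := by
  sorry

end SF
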