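import Pool.Agent.Helper33.SF.Half
import Pool.Agent.Helper33.SF.Nest
import Pool.Agent.Helper33.SF.Own
import Pool.Agent.Helper33.SF.Prty

/-!
# SF: there is no law

PROOF NOTES.  a.e.: no infinite chains (`chain_null` for `r = 1, -1`), no half-infinite runs to the right (`no_half`) and to the left (`no_half` for `law_mir`, `hgt_mir`), the own inequality
(`own_ineq`), so by `no_nest` there is `k ≥ 0` without a finite run of level `k` around `0` in the row `0`; then (no half-infinite runs) `hgt y x 0 ≤ k` for all `x`.  So the row `0` has a maximum `K`, attained.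
`B c = {y | ∃ x, (∀ x', hgt y x' 0 ≤ hgt y x 0) ∧ (bb (y x 0) xor Even x) = c}`, `c : Bool`.  By `row_parity` a.e. exactly one of `B true`, `B false` holds; `S 1 0` exchanges them, `S 2 0` preserves them.
Ergodicity of `S 2 0`: `ν (B c) ∈ {0, 1}`, contradiction.
-/

set_option autoImplicit false

namespace SF

open MeasureTheory EB

theorem no_law (ν : Measure Pc) : ¬ Law ν := by
  sorry

end SF
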