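import Pool.Agent.Helper33.SF.DecN
import Pool.Agent.Helper33.SF.NoLaw
import Pool.Agent.Helper20.BM.Fin

/-!
# SF: no solution for a measure for which each `2 e_i` is ergodic

PROOF NOTES.  `BM.ext_sol` (see `BM.no_solFor`): `F : Om d → LabS K`, `Ms F`, and for a.e. `x` `y x = fun g => F (sh g x)` is allowed everywhere.  For units `e, f` put `E e f = {x | Dr (y x) 0 e f}`: a.e. `x` is in exactly one of
these finitely many sets (`dr_exists`, `dr_uniq`; a unit is `± un i`).  `dr_step`: `E e f` is invariant under `sh e` a.e., so by `Erg2.one` it has measure `0` or `1`.  So one of them has measure `1`.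
`ν = μ.map (fun x i j => (F (sh (i • e + j • f) x)).2.2)` is a law: invariance: `S p q (φ x) = φ (sh (p • e + q • f) x)`; ergodic: `S 2 0` is a factor of `sh (2 e)` (`e = ± un i`; the inverse of an ergodic invertible map is ergodic);
`conf`: `dr_conf` with `g = 0`.  Contradiction to `no_law`.
-/

set_option autoImplicit false

namespace SF

open EB BM MeasureTheory

theorem no_solS {d K : ℕ} (hd : 2 ≤ d) (μ : Measure (Om d)) [IsProbabilityMeasure μ] (h : Erg2 μ) :
    ¬ SolFor d μ (lclS K) := by
  sorry

end SF
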