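import Pool.Agent.Helper33.SF.Step
import Pool.Agent.Helper27.EB.Defs

/-!
# SF: measurability on the space of planar configurations

PROOF NOTES.  `Lb` is finite, so `y ↦ y x z` has measurable fibres; `EB.Ms` has `comp`, `map2`, `sum`, `pi`, `pair`.  All the events are
countable Boolean combinations.
-/

set_option autoImplicit false

namespace SF

open EB

theorem ms_val (x z : ℤ) : Ms fun y : Pc => y x z := by
  sorry

theorem ms_hgt (x z : ℤ) : Ms fun y : Pc => hgt y x z := by
  sorry

theorem me_bd (k z p e : ℤ) : MeasurableSet {y : Pc | Bd (hgt y) k z p e} := by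
  sorry

theorem me_fr (k z p e : ℤ) : MeasurableSet {y : Pc | Fr (hgt y) k z p e} := by
  sorry

theorem me_nx (k z p r p' : ℤ) : MeasurableSet {y : Pc | Nx (hgt y) k z p r p'} := by
  sorry

theorem me_ch (k r : ℤ) (n : ℕ) (z p : ℤ) : MeasurableSet {y : Pc | Ch (hgt y) k r n z p} := by
  sorry

theorem me_inf (r x z : ℤ) : MeasurableSet {y : Pc | Inf (hgt y) r x z} := by
  sorry

theorem ms_Dd (k z p e : ℤ) : Ms fun y : Pc => Dd y (hgt y) k z p e := by
  sorry

theorem ms_psi (b : Bool) (k z p e : ℤ) : Ms fun y : Pc => psi b y (hgt y) k z p e := by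
  sorry

theorem measurable_S (p q : ℤ) : Measurable (S p q) := by
  sorry

theorem measurable_mir : Measurable (mir : Pc → Pc) := by
  sorry

end SF
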