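import Pool.Agent.Helper33.SF.Defs

/-!
# SF: the parameters

`A 0 = 2^12`, `Q n = 2^(n+6) A n`, `R n = 2^(n+3) Q n`, `D n = 4 R n`, `K n = 32 D n`, `A (n+1) = 2^(2n+26) A n = 2^10 K n`.
-/

set_option autoImplicit false

namespace SF

theorem A_succ (n : ℕ) : A (n + 1) = 2 ^ 10 * K n := by
  sorry

theorem A_pos (n : ℕ) : 0 < A n := by
  sorry

theorem A_mono {m n : ℕ} (h : m ≤ n) : A m ≤ A n := by
  sorry

theorem A_big (n : ℕ) : 2 ^ 10 * (n + 1) ≤ A n := by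
  sorry

theorem A_le_Q (n : ℕ) : 64 * A n ≤ Q n := by
  sorry

theorem Q_le_R (n : ℕ) : 8 * Q n ≤ R n := by
  sorry

theorem Q_lt (m n : ℕ) (h : m < n) : 2 ^ 10 * Q m ≤ A n := by
  sorry

theorem D_lt (m n : ℕ) (h : m < n) : 2 ^ 10 * D m ≤ A n := by
  sorry

/-- the sum of the lower radii is small -/
theorem sum_Q (n : ℕ) : 64 * ∑ m ∈ Finset.range n, Q m ≤ A n := by
  sorry

theorem Lg_le (n : ℕ) : 16 * Lg n ≤ A n := by
  sorry

theorem K_ge (n : ℕ) : 2 * D n + 2 * Lg (n + 1) + 2 ≤ K n := by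
  sorry

end SF
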