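import Pool.Agent.Helper33.SF.Defs

/-!
# SF: the rules for a piece with children

`t p q`: the shape.  `cov v`: the cell `v` belongs to a child.  `kid v` (for `cov v`): its child as a set of cells.

PROOF NOTES.  Let `y` agree with `lam` on `P` and `Sur P y g`.  Each child `B ⊆ P` satisfies `Sur B y (fun s => ⌊G s v0⌋)`: a cell `v ∉ B` next to `B` is in `P`, not covered (`far`), has no neighbour outside of `P`
(`inn`), so it has type `O`, and `G` is constant around the child (`Gk`).  So all rules which touch a child follow from its `VP`.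
Own cells (`v ∈ P`, not covered):
* blocks inside `P` which touch no child: not both types (`inn`), so only `circ` is not vacuous: `|⌊G s (v + e)⌋ - ⌊G s v⌋| ≤ 1` (`Gl`), so `lf` of the residues is the difference.
* blocks which touch no child and meet `P` and the complement: the cells in `P` have type `I`, the others type `O`.  `nodiag` and `tip` from the shape: the rows are intervals `[p z, q z]` which contain `0`, `p`, `q` are
1-Lipschitz, the two tip rows are `{0}`.  `outc`: `Sur`.  `cst false`: a cell with right neighbour outside is `(q z, z)`; all cells of `P` in the block have `v.1 ≥ q v.2 - 1`, so `⌊G false v⌋ = 0` (`Gr`).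
`grh false`: the cell in the other row is `(p z', z')`, and `⌊G false⌋` is equal at `(p z', z')` and `(p z' + 1, z')` (`Gp`).  `cst true`, `grh true`: mirror images.
* `er`: both cells in one child: its `VP`; both own: parity; one in a child: it has type `I` (`edge`) and the other one type `O`, so `dh ≠ 0`.
* `vr`: `v` own of type `I`; `v + (0, r)` of type `O` is not in `P` (otherwise it would be next to a child, but `v` is next to the complement); by the shape `v + (1, 0)` or `v - (1, 0)` is not in `P`.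
* `up`: both cells of type `I` are own (if one is in a child, both are, and its `VP` applies), so (`s = false`) they are `(p (z+1), z+1)` and `(p z, z)`; `Step` from the formulas for `ph`, `ck` and `Gp`:
`⌊(2 t - ab z) / 64⌋` (real division) is the integer quotient.
-/

set_option autoImplicit false

namespace SF

/-- the data of a piece -/
structure Pd (P : Set Cell) (lam : Cell → Lb) (t : ℤ) (p q : ℤ → ℤ) (cov : Cell → Prop)
    (kid : Cell → Set Cell) (G : Bool → Cell → ℝ) : Prop where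
  t1 : 8 ≤ t
  hP : P = PS t p q
  pl : ∀ z, |p (z + 1) - p z| ≤ 1
  ql : ∀ z, |q (z + 1) - q z| ≤ 1
  pb : ∀ z, p z ≤ -t + (ab z + 1) / 2
  qb : ∀ z, t - (ab z + 1) / 2 ≤ q z
  tp : p (2 * t) = 0 ∧ q (2 * t) = 0 ∧ p (-2 * t - 1) = 0 ∧ q (-2 * t - 1) = 0
  /-- covered cells are far from the complement of `P` -/
  inn : ∀ v, cov v → v ∈ P → ∀ w, n1 (w - v) ≤ 8 → w ∈ P
  kmem : ∀ v, cov v → v ∈ P → v ∈ kid v ∧ (∀ w ∈ kid v, cov w ∧ w ∈ P)
  far : ∀ v w, cov v → cov w → v ∈ P → w ∈ P → n1 (w - v) ≤ 8 → w ∈ kid v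
  kvp : ∀ v, cov v → v ∈ P → VP (kid v) lam
  /-- `G` is constant around the child -/
  Gk : ∀ v, cov v → v ∈ P → ∀ u ∈ kid v, ∀ w ∈ kid v, ∀ u' w', n1 (u' - u) ≤ 4 → n1 (w' - w) ≤ 4 →
    ∀ s, G s u' = G s w'
  Gl : ∀ s, Lip 1 (G s)
  /-- values next to the walls -/
  Gp : ∀ v ∈ P, v.1 ≤ p v.2 + 2 → G false v = ((2 * t - ab v.2 : ℤ) : ℝ) / 64
  Gr : ∀ v ∈ P, q v.2 - 1 ≤ v.1 → ⌊G false v⌋ = 0
  Gq : ∀ v ∈ P, q v.2 - 2 ≤ v.1 → G true v = ((2 * t - ab v.2 : ℤ) : ℝ) / 64
  Gs : ∀ v ∈ P, v.1 ≤ p v.2 + 1 → ⌊G true v⌋ = 0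
  /-- labels of the own cells -/
  lI : ∀ v ∈ P, ¬ cov v → ∀ w, w ∉ P → Nb v w → In (lam v)
  lO : ∀ v ∈ P, ¬ cov v → (∀ w, Nb v w → w ∈ P) → ∀ w, cov w → Nb v w → Ou (lam v)
  lN : ∀ v ∈ P, ¬ cov v → (∀ w, Nb v w → w ∈ P) → (∀ w, cov w → ¬ Nb v w) → tt (lam v) = none
  lb : ∀ v ∈ P, ¬ cov v → bb (lam v) = decide (Even (v.1 + v.2))
  lg : ∀ v ∈ P, ¬ cov v → ∀ s, gg s (lam v) = ((⌊G s v⌋ : ℤ) : ZMod 3)
  lp : ∀ v ∈ P, ¬ cov v → ∀ s, ph s (lam v) = decide (v.2 < 0)
  lc : ∀ v ∈ P, ¬ cov v → ∀ s, ck s (lam v) =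
    if 0 ≤ v.2 then ((2 * t - v.2 : ℤ) : ZMod 64) else ((-2 * t - 2 - v.2 : ℤ) : ZMod 64)

variable {P : Set Cell} {lam : Cell → Lb} {t : ℤ} {p q : ℤ → ℤ} {cov : Cell → Prop}
  {kid : Cell → Set Cell} {G : Bool → Cell → ℝ}

theorem Pd.edge (h : Pd P lam t p q cov kid G) : ∀ v ∈ P, ∀ w, w ∉ P → Nb v w → In (lam v) := by
  sorry

theorem Pd.sur (h : Pd P lam t p q cov kid G) {y : Cell → Lb} {g : Bool → ZMod 3}
    (hy : ∀ v ∈ P, y v = lam v) (hs : Sur P y g) {v : Cell} (hc : cov v) (hv : v ∈ P) :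
    Sur (kid v) y fun s => ((⌊G s v⌋ : ℤ) : ZMod 3) := by
  sorry

end SF
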