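import Pool.Agent.Helper33.SF.RDefs

/-! # SF: blocks inside of a piece (notes in RDefs.lean) -/

set_option autoImplicit false

namespace SF

variable {P : Set Cell} {lam : Cell → Lb} {t : ℤ} {p q : ℤ → ℤ} {cov : Cell → Prop}
  {kid : Cell → Set Cell} {G : Bool → Cell → ℝ}

/-- blocks inside `P` which touch no child -/
theorem Pd.br_in (h : Pd P lam t p q cov kid G) {y : Cell → Lb}
    (hy : ∀ v ∈ P, y v = lam v) {v : Cell}
    (h1 : ∀ i j : Bool, v + (if i then 1 else 0, if j then 1 else 0) ∈ P)
    (h2 : ∀ i j : Bool, ¬ cov (v + (if i then 1 else 0, if j then 1 else 0))) : BR (blk y v) := by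
  sorry

end SF
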