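import Pool.Agent.Helper33.SF.Hgt

/-!
# SF: runs and their neighbours

PROOF NOTES.  `r = 1` and `r = -1` are symmetric (all facts of Hgt.lean used here, `Ht.blk`, `Ht.vr`, `Ht.nd`, are symmetric).
Let `Bd h k z p e`.  (F) If `p < x`, (`x < e` or the run is half-infinite), then `h x (z + r) ≤ k`: otherwise `h x z = k`, `h x (z + r) = k + 1`
and `Ht.vr` gives a neighbour of `x` in the row `z` with height `k + 1`.
`nx_or_tip`: if `h x (z + r) = k + 1` for all `x ∈ [p, e]` (and the run is finite) then `e ≤ p + 1` by (F).  Otherwise the cells of `[p, e]` with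
`h x (z + r) ≤ k` form an interval which contains `(p, e)`.  Left end: if `h p (z + r) = k + 1` then `h (p + 1) (z + r) = k`, `p' = p + 1`.
If `h p (z + r) ≤ k` then it is `k` (block `p - 1, p`) and `h (p - 1) (z + r)` is `k + 1` (`p' = p`) or `k`; in the last case `Ht.vr` at
`(p - 1, z + r)` (the cell `(p - 1, z)` has height `k + 1`) gives `h (p - 2) (z + r) = k + 1`, `p' = p - 1`.
Right end of a finite run: the mirror image.  Right end `e` of a half-infinite run: `[e + 1, ∞)` is a half-infinite run of level `k - 1` with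
`h e z = (k - 1) + 1`; the argument for the left end gives `e''` with `|e'' - e| ≤ 1`, `h e'' (z + r) = k` and all later cells `≤ k - 1`.
-/

set_option autoImplicit false

namespace SF

variable {y : ℤ → ℤ → Lb} {h : ℤ → ℤ → ℤ}

/-- the facts about heights which are used for runs -/
structure RunH (h : ℤ → ℤ → ℤ) : Prop where
  dx : ∀ x z, |h (x + 1) z - h x z| ≤ 1
  dz : ∀ x z r, r = 1 ∨ r = -1 → |h x (z + r) - h x z| ≤ 1
  blk : ∀ x z r, r = 1 ∨ r = -1 → ∃ m, (h x z = m ∨ h x z = m + 1) ∧
    (h (x + 1) z = m ∨ h (x + 1) z = m + 1) ∧ (h x (z + r) = m ∨ h x (z + r) = m + 1) ∧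
    (h (x + 1) (z + r) = m ∨ h (x + 1) (z + r) = m + 1)
  vr : ∀ x z r, r = 1 ∨ r = -1 → h x (z + r) = h x z + 1 →
    h (x + 1) z = h x z + 1 ∨ h (x - 1) z = h x z + 1
  nd : ∀ x z s r k, s = 1 ∨ s = -1 → r = 1 ∨ r = -1 → h x z = k → h (x + s) z = k + 1 →
    h x (z + r) = k + 1 → h (x + s) (z + r) = k + 1

theorem Ht.runH (hy : Conf y) (hh : Ht y h) : RunH h where
  dx := hh.dx
  dz x z r hr := by
    rcases hr with rfl | rfl
    · exact hh.dz x z
    · have := hh.dz x (z + -1)
      rw [neg_add_cancel_right, abs_sub_comm] at this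
      exact this
  blk x z r hr := by
    have key : ∀ z, ∃ m, (h x z = m ∨ h x z = m + 1) ∧
        (h (x + 1) z = m ∨ h (x + 1) z = m + 1) ∧ (h x (z + 1) = m ∨ h x (z + 1) = m + 1) ∧
        (h (x + 1) (z + 1) = m ∨ h (x + 1) (z + 1) = m + 1) := by
      intro z
      rcases hh.blk hy x z with ⟨h1, _⟩ | ⟨m, hm⟩
      · refine ⟨h x z, Or.inl rfl, Or.inl ?_, Or.inl ?_, Or.inl ?_⟩
        · simpa [cc] using h1 true false
        · simpa [cc] using h1 false true
        · simpa [cc] using h1 true true
      · refine ⟨m, ?_, ?_, ?_, ?_⟩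
        · rcases hm false false with ⟨h1, _⟩ | ⟨h1, _⟩
          · exact Or.inl (by simpa [cc] using h1)
          · exact Or.inr (by simpa [cc] using h1)
        · rcases hm true false with ⟨h1, _⟩ | ⟨h1, _⟩
          · exact Or.inl (by simpa [cc] using h1)
          · exact Or.inr (by simpa [cc] using h1)
        · rcases hm false true with ⟨h1, _⟩ | ⟨h1, _⟩
          · exact Or.inl (by simpa [cc] using h1)
          · exact Or.inr (by simpa [cc] using h1)
        · rcases hm true true with ⟨h1, _⟩ | ⟨h1, _⟩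
          · exact Or.inl (by simpa [cc] using h1)
          · exact Or.inr (by simpa [cc] using h1)
    rcases hr with rfl | rfl
    · exact key z
    · obtain ⟨m, h1, h2, h3, h4⟩ := key (z + -1)
      rw [neg_add_cancel_right] at h3 h4
      exact ⟨m, h3, h4, h1, h2⟩
  vr x z r hr h1 := hh.vr hy hr h1
  nd x z s r k hs hr h1 h2 h3 := hh.nd hy hs hr h1 h2 h3

private theorem RunH.mir (H : RunH h) : RunH fun x z => h (-x) z where
  dx x z := by
    have := H.dx (-(x + 1)) z
    rw [show -(x + 1) + 1 = -x by ring, abs_sub_comm] at this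
    exact this
  dz x z r hr := H.dz (-x) z r hr
  blk x z r hr := by
    obtain ⟨m, h1, h2, h3, h4⟩ := H.blk (-(x + 1)) z r hr
    rw [show -(x + 1) + 1 = -x by ring] at h2 h4
    exact ⟨m, h2, h1, h4, h3⟩
  vr x z r hr h1 := by
    have h2 := H.vr (-x) z r hr h1
    rw [show -x + 1 = -(x - 1) by ring, show -x - 1 = -(x + 1) by ring] at h2
    exact h2.symm
  nd x z s r k hs hr h1 h2 h3 := by
    have hs' : -s = 1 ∨ -s = -1 := by omega
    have e : -(x + s) = -x + -s := by ring
    simp only [e] at h2 ⊢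
    exact H.nd (-x) z (-s) r k hs' hr h1 h2 h3

private theorem RunH.leftAux (H : RunH h) {k z p r : ℤ} (hr : r = 1 ∨ r = -1)
    (h1 : h (p - 1) z = k + 1) (h2 : h p z = k) (h3 : h p (z + r) ≤ k) :
    ∃ p', p - 1 ≤ p' ∧ p' ≤ p ∧ h (p' - 1) (z + r) = k + 1 ∧
      ∀ x, p' ≤ x → x ≤ p → h x (z + r) = k := by
  obtain ⟨m, a1, a2, a3, a4⟩ := H.blk (p - 1) z r hr
  rw [sub_add_cancel] at a2 a4
  have h4 : h p (z + r) = k := by omega
  by_cases h5 : h (p - 1) (z + r) = k + 1
  · refine ⟨p, by omega, le_rfl, h5, fun x hx1 hx2 => ?_⟩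
    have : x = p := by omega
    rw [this, h4]
  · have h6 : h (p - 1) (z + r) = k := by omega
    have hr' : -r = 1 ∨ -r = -1 := by omega
    have h7 := H.vr (p - 1) (z + r) (-r) hr' (by rw [add_neg_cancel_right, h1, h6])
    rw [sub_add_cancel] at h7
    have h8 : h (p - 1 - 1) (z + r) = k + 1 := by omega
    refine ⟨p - 1, le_rfl, by omega, h8, fun x hx1 hx2 => ?_⟩
    rcases (by omega : x = p - 1 ∨ x = p) with rfl | rfl
    · exact h6
    · exact h4

private theorem RunH.rightAux (H : RunH h) {k z e r : ℤ} (hr : r = 1 ∨ r = -1)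
    (h1 : h (e + 1) z = k + 1) (h2 : h e z = k) (h3 : h e (z + r) ≤ k) :
    ∃ e', e ≤ e' ∧ e' ≤ e + 1 ∧ h (e' + 1) (z + r) = k + 1 ∧
      ∀ x, e ≤ x → x ≤ e' → h x (z + r) = k := by
  obtain ⟨p', a1, a2, a3, a4⟩ := H.mir.leftAux (k := k) (z := z) (p := -e) (r := r) hr
    (by simpa [add_comm] using h1) (by simpa using h2) (by simpa using h3)
  refine ⟨-p', by omega, by omega, ?_, fun x hx1 hx2 => ?_⟩
  · rw [show -p' + 1 = -(p' - 1) by ring]
    exact a3
  · have := a4 (-x) (by omega) (by omega)
    simpa using this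

/-- (F) for one cell -/
private theorem RunH.F (H : RunH h) {k z x r : ℤ} (hr : r = 1 ∨ r = -1)
    (h1 : h (x - 1) z ≤ k) (h2 : h x z ≤ k) (h3 : h (x + 1) z ≤ k) : h x (z + r) ≤ k := by
  by_contra hcon
  have h4 := H.dz x z r hr
  rw [abs_le] at h4
  have h5 := H.vr x z r hr (by omega)
  omega

theorem Bd.uniq {k z p e e' : ℤ} (h1 : Bd h k z p e) (h2 : Bd h k z p e') : e = e' := by
  have key : ∀ {e e' : ℤ}, Bd h k z p e → Bd h k z p e' → ¬ e < e' := by
    intro e e' h1 h2 hlt
    rcases h1.out with h3 | h3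
    · have := h2.ins (e + 1) (by have := h1.le; omega) (by omega)
      omega
    · have := h3 e' hlt
      have := h2.own
      omega
  have a := key h1 h2
  have b := key h2 h1
  omega

theorem Bd.levl {k k' z p e e' : ℤ} (h1 : Bd h k z p e) (h2 : Bd h k' z p e') : k = k' := by
  have := h1.left
  have := h2.left
  omega

theorem Fr.bd {k z p e : ℤ} (hh : Ht y h) (h1 : Fr h k z p e) : Bd h k z p e := by
  obtain ⟨a1, a2, a3, a4⟩ := h1
  refine ⟨a1, a2, a4, ?_, Or.inl a3⟩
  have h2 := hh.dx e z
  rw [abs_le] at h2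
  have := a4 e a1 le_rfl
  omega

/-- the left end has height `k` -/
theorem Bd.lev {k z p e : ℤ} (hh : Ht y h) (hb : Bd h k z p e) : h p z = k := by
  have h2 := hh.dx (p - 1) z
  rw [sub_add_cancel, abs_le] at h2
  have := hb.ins p le_rfl hb.le
  have := hb.left
  omega

theorem nx_or_tip (hy : Conf y) (hh : Ht y h) {k z p e r : ℤ} (hr : r = 1 ∨ r = -1)
    (hb : Bd h k z p e) :
    (∃ p' e', |p' - p| ≤ 1 ∧ |e' - e| ≤ 1 ∧ Bd h k (z + r) p' e') ∨
      (h (e + 1) z = k + 1 ∧ e ≤ p + 1 ∧ ∀ x, p ≤ x → x ≤ e → h x (z + r) = k + 1) := by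
  have H := hh.runH hy
  have hlev := hb.lev hh
  have hle := hb.le
  have hp := hb.left
  have hown := hb.own
  -- the cells above are at most `k + 1`
  have hup : ∀ x, h x z ≤ k → h x (z + r) ≤ k + 1 := by
    intro x hx
    have := H.dz x z r hr
    rw [abs_le] at this
    omega
  rcases hb.out with hfin | hinf
  · -- finite run
    have hF : ∀ x, p < x → x < e → h x (z + r) ≤ k := fun x h1 h2 =>
      H.F hr (hb.ins _ (by omega) (by omega)) (hb.ins _ (by omega) (by omega))
        (hb.ins _ (by omega) (by omega))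
    by_cases htip : e ≤ p + 1 ∧ ∀ x, p ≤ x → x ≤ e → h x (z + r) = k + 1
    · exact Or.inr ⟨hfin, htip⟩
    · left
      -- some cell above is low
      obtain ⟨x0, hx1, hx2, hx3⟩ : ∃ x0, p ≤ x0 ∧ x0 ≤ e ∧ h x0 (z + r) ≤ k := by
        by_cases he : e ≤ p + 1
        · by_contra hcon
          push Not at hcon
          apply htip
          refine ⟨he, fun x h1 h2 => ?_⟩
          have a := hcon x h1 h2
          have b := hup x (hb.ins x h1 h2)
          omega
        · exact ⟨p + 1, by omega, by omega, hF _ (by omega) (by omega)⟩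
      -- left end
      obtain ⟨p', a1, a2, a3, a4, a5, a6⟩ : ∃ p', p - 1 ≤ p' ∧ p' ≤ p + 1 ∧
          h (p' - 1) (z + r) = k + 1 ∧ (∀ x, p' ≤ x → x ≤ p → h x (z + r) = k) ∧ p' ≤ x0 ∧
          h p' (z + r) = k := by
        by_cases h1 : h p (z + r) ≤ k
        · obtain ⟨p', b1, b2, b3, b4⟩ := H.leftAux hr hp hlev h1
          exact ⟨p', b1, by omega, b3, b4, by omega, b4 p' le_rfl b2⟩
        · have h2 : h p (z + r) = k + 1 := by
            have := hup p (by omega)
            omega
          have h3 : x0 ≠ p := by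
            rintro rfl
            omega
          have h4 : h (p + 1) (z + r) ≤ k := by
            by_cases h5 : p + 1 < e
            · exact hF _ (by omega) h5
            · have : x0 = p + 1 := by omega
              rw [← this]
              exact hx3
          have h5 := H.dx p (z + r)
          rw [abs_le] at h5
          refine ⟨p + 1, by omega, le_rfl, by rw [add_sub_cancel_right]; exact h2,
            fun x h6 h7 => by omega, by omega, by omega⟩
      -- right end
      obtain ⟨e', b1, b2, b3, b4, b5, b6⟩ : ∃ e', e - 1 ≤ e' ∧ e' ≤ e + 1 ∧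
          h (e' + 1) (z + r) = k + 1 ∧ (∀ x, e ≤ x → x ≤ e' → h x (z + r) = k) ∧ x0 ≤ e' ∧
          h e' (z + r) = k := by
        by_cases h1 : h e (z + r) ≤ k
        · obtain ⟨e', b1, b2, b3, b4⟩ := H.rightAux hr hfin hown h1
          exact ⟨e', by omega, b2, b3, b4, by omega, b4 e' b1 le_rfl⟩
        · have h2 : h e (z + r) = k + 1 := by
            have := hup e (by omega)
            omega
          have h3 : x0 ≠ e := by
            rintro rfl
            omega
          have h4 : h (e - 1) (z + r) ≤ k := by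
            by_cases h5 : p < e - 1
            · exact hF _ h5 (by omega)
            · have : x0 = e - 1 := by omega
              rw [← this]
              exact hx3
          have h5 := H.dx (e - 1) (z + r)
          rw [sub_add_cancel, abs_le] at h5
          refine ⟨e - 1, le_rfl, by omega, by rw [sub_add_cancel]; exact h2,
            fun x h6 h7 => by omega, by omega, by omega⟩
      refine ⟨p', e', by rw [abs_le]; omega, by rw [abs_le]; omega, by omega, a3, ?_, b6, Or.inl b3⟩
      intro x h1 h2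
      by_cases h3 : x ≤ p
      · exact (a4 x h1 h3).le
      · by_cases h4 : e ≤ x
        · exact (b4 x h4 h2).le
        · exact hF x (by omega) (by omega)
  · -- half-infinite run
    left
    have hins : ∀ x, p ≤ x → h x z ≤ k := by
      intro x hx
      by_cases h1 : x ≤ e
      · exact hb.ins x hx h1
      · exact (hinf x (by omega)).le
    have hF : ∀ x, p < x → h x (z + r) ≤ k := fun x h1 =>
      H.F hr (hins _ (by omega)) (hins _ (by omega)) (hins _ (by omega))
    have hF' : ∀ x, e + 1 < x → h x (z + r) < k := by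
      intro x h1
      have h2 := H.F (k := k - 1) (z := z) (x := x) hr (by have := hinf (x - 1) (by omega); omega)
        (by have := hinf x (by omega); omega) (by have := hinf (x + 1) (by omega); omega)
      omega
    have he1 : h (e + 1) z = k - 1 := by
      have h1 := H.dx e z
      rw [abs_le] at h1
      have := hinf (e + 1) (by omega)
      omega
    -- right end
    obtain ⟨e', b1, b2, b3, b4⟩ : ∃ e', e - 1 ≤ e' ∧ e' ≤ e + 1 ∧ h e' (z + r) = k ∧
        ∀ x, e' < x → h x (z + r) < k := by
      obtain ⟨m, c1, c2, c3, c4⟩ := H.blk e z r hr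
      by_cases h1 : h (e + 1) (z + r) ≤ k - 1
      · obtain ⟨p1, d1, d2, d3, d4⟩ := H.leftAux (k := k - 1) (p := e + 1) hr
          (by rw [add_sub_cancel_right]; omega) he1 h1
        refine ⟨p1 - 1, by omega, by omega, by omega, fun x hx => ?_⟩
        by_cases h2 : x ≤ e + 1
        · have := d4 x (by omega) h2
          omega
        · exact hF' x (by omega)
      · exact ⟨e + 1, by omega, le_rfl, by omega, hF'⟩
    -- left end
    obtain ⟨p', a1, a2, a3, a4, a6⟩ : ∃ p', p - 1 ≤ p' ∧ p' ≤ p + 1 ∧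
        h (p' - 1) (z + r) = k + 1 ∧ (∀ x, p' ≤ x → x ≤ p → h x (z + r) = k) ∧
        h p' (z + r) = k := by
      by_cases h1 : h p (z + r) ≤ k
      · obtain ⟨p', b1, b2, b3, b4⟩ := H.leftAux hr hp hlev h1
        exact ⟨p', b1, by omega, b3, b4, b4 p' le_rfl b2⟩
      · have h2 : h p (z + r) = k + 1 := by
          have := hup p (by omega)
          omega
        have h4 : h (p + 1) (z + r) ≤ k := hF _ (by omega)
        have h5 := H.dx p (z + r)
        rw [abs_le] at h5
        refine ⟨p + 1, by omega, le_rfl, by rw [add_sub_cancel_right]; exact h2,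
          fun x h6 h7 => by omega, by omega⟩
    have hpe : p' ≤ e' := by
      by_contra hcon
      have := b4 p' (by omega)
      omega
    refine ⟨p', e', by rw [abs_le]; omega, by rw [abs_le]; omega, hpe, a3, ?_, b3, Or.inr b4⟩
    intro x h1 h2
    by_cases h3 : x ≤ p
    · exact (a4 x h1 h3).le
    · exact hF x (by omega)

theorem nx_uniq (hy : Conf y) (hh : Ht y h) {k z p e r p' p'' : ℤ} (hr : r = 1 ∨ r = -1)
    (hb : Bd h k z p e) (h1 : Nx h k z p r p') (h2 : Nx h k z p r p'') : p' = p'' := by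
  have H := hh.runH hy
  have hlev := hb.lev hh
  have hp := hb.left
  have key : ∀ {p' p'' : ℤ}, Nx h k z p r p' → Nx h k z p r p'' → ¬ p' < p'' := by
    intro p' p'' h1 h2 hlt
    obtain ⟨a1, e', b1⟩ := h1
    obtain ⟨a2, e'', b2⟩ := h2
    rw [abs_le] at a1 a2
    have c1 := b1.le
    have c2 := b2.left
    have c3 : e' < p'' - 1 := by
      by_contra hcon
      have := b1.ins (p'' - 1) (by omega) (by omega)
      omega
    have d1 : p' = p - 1 := by omega
    have d2 : p'' = p + 1 := by omega
    have c4 := b1.lev hh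
    rw [d1] at c4
    rw [d2, add_sub_cancel_right] at c2
    have := H.nd p z (-1) r k (Or.inr rfl) hr hlev (by rw [← sub_eq_add_neg]; exact hp) c2
    rw [← sub_eq_add_neg] at this
    omega
  have a := key h1 h2
  have b := key h2 h1
  omega

theorem nx_symm {k z p e r p' : ℤ} (hb : Bd h k z p e) (h1 : Nx h k z p r p') :
    Nx h k (z + r) p' (-r) p := by
  refine ⟨by rw [abs_sub_comm]; exact h1.1, e, ?_⟩
  rw [add_neg_cancel_right]
  exact hb

theorem nx_end (hy : Conf y) (hh : Ht y h) {k z p e r p' e' : ℤ} (hr : r = 1 ∨ r = -1)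
    (hb : Bd h k z p e) (hp : |p' - p| ≤ 1) (hb' : Bd h k (z + r) p' e') : |e' - e| ≤ 1 := by
  have H := hh.runH hy
  have hlev := hb.lev hh
  have hl := hb.left
  have hlev' := hb'.lev hh
  rcases nx_or_tip hy hh hr hb with ⟨p1, e1, h1, h2, h3⟩ | ⟨h1, h2, h3⟩
  · have h4 : p1 = p' := nx_uniq hy hh hr hb ⟨h1, e1, h3⟩ ⟨hp, e', hb'⟩
    subst h4
    rw [hb'.uniq h3]
    exact h2
  · exfalso
    rw [abs_le] at hp
    have hle := hb.le
    by_cases h4 : p' < p
    · have h5 : p' = p - 1 := by omega
      have := H.nd p z (-1) r k (Or.inr rfl) hr hlev (by rw [← sub_eq_add_neg]; exact hl)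
        (h3 p le_rfl hle)
      rw [← sub_eq_add_neg, ← h5] at this
      omega
    · by_cases h5 : p' ≤ e
      · have := h3 p' (by omega) h5
        omega
      · have h6 : e = p := by omega
        have h7 : p' = p + 1 := by omega
        subst h6
        have := H.nd e z 1 r k (Or.inl rfl) hr hlev h1 (h3 e le_rfl le_rfl)
        rw [← h7] at this
        omega

/-- a half-infinite run has half-infinite neighbours -/
theorem nx_half (hy : Conf y) (hh : Ht y h) {k z p e r : ℤ} (hr : r = 1 ∨ r = -1)
    (hb : Bd h k z p e) (hf : ∀ x, e < x → h x z < k) :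
    ∃ p' e', |p' - p| ≤ 1 ∧ Bd h k (z + r) p' e' ∧ ∀ x, e' < x → h x (z + r) < k := by
  have H := hh.runH hy
  have hlev := hb.lev hh
  have hl := hb.left
  rcases nx_or_tip hy hh hr hb with ⟨p1, e1, h1, h2, h3⟩ | ⟨h1, h2, h3⟩
  · refine ⟨p1, e1, h1, h3, ?_⟩
    rcases h3.out with h4 | h4
    · exfalso
      have hins : ∀ x, p ≤ x → h x z ≤ k := by
        intro x hx
        by_cases h1 : x ≤ e
        · exact hb.ins x hx h1
        · exact (hf x (by omega)).le
      have h5 : e1 + 1 ≤ p := by
        by_contra hcon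
        have := H.F (k := k) (z := z) (x := e1 + 1) hr (hins _ (by omega)) (hins _ (by omega))
          (hins _ (by omega))
        omega
      rw [abs_le] at h1
      have h6 := h3.le
      have h7 : p1 = p - 1 := by omega
      have h8 : e1 = p - 1 := by omega
      have h9 := h3.own
      rw [h8, sub_add_cancel] at h4
      have := H.nd p z (-1) r k (Or.inr rfl) hr hlev (by rw [← sub_eq_add_neg]; exact hl) h4
      rw [← sub_eq_add_neg, ← h8] at this
      omega
    · exact h4
  · exfalso
    have := hf (e + 1) (by omega)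
    omega

/-- a finite run has only finite neighbours -/
theorem nx_fin (hy : Conf y) (hh : Ht y h) {k z p e r p' e' : ℤ} (hr : r = 1 ∨ r = -1)
    (hb : Bd h k z p e) (hf : h (e + 1) z = k + 1) (hp : |p' - p| ≤ 1) (hb' : Bd h k (z + r) p' e') :
    h (e' + 1) (z + r) = k + 1 := by
  rcases hb'.out with h1 | h1
  · exact h1
  · exfalso
    have hr' : -r = 1 ∨ -r = -1 := by omega
    obtain ⟨p1, e1, a1, a2, a3⟩ := nx_half hy hh hr' hb' h1
    have h2 : p1 = p := nx_uniq hy hh hr' hb' ⟨a1, e1, a2⟩ (nx_symm hb ⟨hp, e', hb'⟩)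
    rw [add_neg_cancel_right] at a2 a3
    rw [h2] at a2
    have h3 := a2.uniq hb
    have := a3 (e + 1) (by omega)
    omega

end SF
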