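import Pool.Agent.Helper33.SF.Prm

/-!
# SF: the choice of the tips

PROOF NOTES.  Induction on `n` (for all `a`).  `n + 1`: put `X = Lg n + 2 D n + 2` and `J i = [a + i X, a + i X + Lg n]`, `i = 0, 1, 2` (`Lg (n+1) = 2 X + Lg n`).  All `c ∈ C n` with `n1 ((0, 2t) - c) ≤ D n` for
some `t ∈ [a, a + Lg (n+1)]` are equal (`Sep`, `K_ge`), and then the `t` with this property lie in an interval of length `≤ D n`, so it meets at most one `J i`; the same for `(0, -2t-1)`.
So one `J i` is free for level `n`; use the induction hypothesis there.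
-/

set_option autoImplicit false

namespace SF

theorem tips (n : ℕ) (C : ℕ → Set Cell) (hC : Sep C) (a : ℤ) : ∃ t, a ≤ t ∧ t ≤ a + Lg n ∧
    ∀ m, m < n → ∀ c ∈ C m, (D m : ℤ) < n1 ((0, 2 * t) - c) ∧ (D m : ℤ) < n1 ((0, -2 * t - 1) - c) := by
  sorry

end SF
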