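import Pool.Agent.Helper33.SF.Walls
import Pool.Agent.Helper33.SF.Tips

/-!
# SF: the shape

PROOF NOTES.  `tips` with `a = ⌈A n / 8⌉` gives `t` (`t ≤ A n / 4` by `Lg_le`).  Left wall: `f` = `walls` for `f0 z = -t + ab z / 2`, `p = ⌈f⌉`.  Right wall: `walls` for the same `f0` and the mirrored centres
`(-c.1, c.2)`: `f'`, `q = ⌊-f'⌋ = -⌈f'⌉`.  `|⌈a⌉ - ⌈b⌉| ≤ 1` if `|a - b| ≤ 1`.
At `z = 2t, 2t + 1, -2t - 1, -2t - 2` one has `f z = f0 z` and `f' z = f0 z`: otherwise there are `m`, `c ∈ C m` with `|z - c.2| ≤ R m`, `|c.1 - f0 z| ≤ 2 R m`, `|f0 z| ≤ 1/2`, so `n1 (tip - c) ≤ 3 R m + 2 ≤ D m`.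
`dich`: let `c ∈ C m`.  If the second alternative of `walls` holds for the left or the right wall, all `v` with `2 n1 (v - c) + 8 ≤ Q m` are outside (`f v.2 > v.1` or mirrored).  Otherwise
`f z ≤ c.1 - Q m + |z - c.2|` and the mirrored inequality hold for all `z`, so `f z ≤ -f' z` for `|z - c.2| ≤ Q m`; since `f z > -f' z` for `z = 2t + 1` and `z = -2t - 2`, the interval
`[c.2 - Q m, c.2 + Q m]` lies in `[-2t-1, 2t]` (all the `v` are inside), above it or below it (all outside).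
-/

set_option autoImplicit false

namespace SF

private theorem ceil_close {a b : ℝ} (h : |b - a| ≤ 1) : |⌈b⌉ - ⌈a⌉| ≤ 1 := by
  rw [abs_le] at h ⊢
  constructor
  · have : ⌈a⌉ ≤ ⌈b⌉ + 1 := by
      rw [Int.ceil_le]
      have := Int.le_ceil b
      push_cast
      linarith [h.1]
    linarith
  · have : ⌈b⌉ ≤ ⌈a⌉ + 1 := by
      rw [Int.ceil_le]
      have := Int.le_ceil a
      push_cast
      linarith [h.2]
    linarith

/-- the value at the tip rows -/
private theorem tipval (n : ℕ) (C : ℕ → Set Cell) (t : ℤ) (f0 f : ℤ → ℝ)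
    (ht : ∀ m, m < n → ∀ c ∈ C m, (D m : ℤ) < n1 ((0, 2 * t) - c) ∧ (D m : ℤ) < n1 ((0, -2 * t - 1) - c))
    (hd : ∀ z : ℤ, f z ≠ f0 z → ∃ m, m < n ∧ ∃ c ∈ C m, |(z : ℝ) - c.2| ≤ R m ∧
        |(c.1 : ℝ) - f0 z| ≤ 2 * R m) (z : ℤ) (h0 : |f0 z| ≤ 1 / 2)
    (hz : |(z : ℝ) - (2 * t : ℤ)| ≤ 1 ∨ |(z : ℝ) - (-2 * t - 1 : ℤ)| ≤ 1) : f z = f0 z := by
  by_contra hne
  obtain ⟨m, hm, c, hc, h1, h2⟩ := hd z hne
  obtain ⟨h3, h4⟩ := ht m hm c hc
  have hR : (8 : ℝ) ≤ R m := by
    have q1 := Q_le_R m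
    have q2 := A_le_Q m
    have q3 := A_pos m
    have : 8 ≤ R m := by omega
    exact_mod_cast this
  have hD : ((D m : ℤ) : ℝ) = 4 * R m := by simp [D]
  rw [abs_le] at h1 h2 h0
  have key : ∀ w : ℤ, |(z : ℝ) - (w : ℤ)| ≤ 1 → (D m : ℤ) < n1 ((0, w) - c) → False := by
    intro w hw hn
    have hn' : ((D m : ℤ) : ℝ) < ((n1 ((0, w) - c) : ℤ) : ℝ) := by exact_mod_cast hn
    rw [hD] at hn'
    have e : ((n1 ((0, w) - c) : ℤ) : ℝ) = |(c.1 : ℝ)| + |(w : ℝ) - c.2| := by
      simp [n1]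
    rw [e] at hn'
    rw [abs_le] at hw
    have a1 : |(c.1 : ℝ)| ≤ 2 * R m + 1 / 2 := by
      rw [abs_le]; constructor <;> linarith [h2.1, h2.2, h0.1, h0.2]
    have a2 : |(w : ℝ) - c.2| ≤ R m + 1 := by
      rw [abs_le]; constructor <;> linarith [h1.1, h1.2, hw.1, hw.2]
    linarith
  rcases hz with hz | hz
  · exact key _ hz h3
  · exact key _ hz h4

theorem exists_shp (n : ℕ) (C : ℕ → Set Cell) (hC : Sep C) : ∃ t p q, Shp n C t p q := by
  obtain ⟨t, ht1, ht2, ht⟩ := tips n C hC (((A n : ℤ) + 7) / 8)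
  have hA : 2 ^ 10 * (n + 1) ≤ A n := A_big n
  have hL : 16 * Lg n ≤ A n := Lg_le n
  have hA' : (1024 : ℤ) ≤ A n := by
    have : 1024 ≤ A n := by omega
    exact_mod_cast this
  have hL' : 16 * (Lg n : ℤ) ≤ A n := by exact_mod_cast hL
  have t0 : (A n : ℤ) ≤ 8 * t := by omega
  have t1 : 4 * t ≤ (A n : ℤ) := by omega
  -- the line
  set f0 : ℤ → ℝ := fun z => -(t : ℝ) + (ab z : ℝ) / 2 with hf0
  have hab0 : ∀ z, 0 ≤ ab z := by intro z; unfold ab; omega
  have hab1 : ∀ z, |ab (z + 1) - ab z| ≤ 1 := by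
    intro z; unfold ab; rw [abs_le]; omega
  have hlz : Lz (1 / 2) f0 := by
    intro z
    have h := hab1 z
    have h' : |((ab (z + 1) : ℤ) : ℝ) - ((ab z : ℤ) : ℝ)| ≤ 1 := by exact_mod_cast h
    rw [abs_le] at h' ⊢
    simp only [hf0]
    constructor <;> linarith [h'.1, h'.2]
  -- mirrored centres
  set C' : ℕ → Set Cell := fun m => {c | (-c.1, c.2) ∈ C m} with hC'
  have hCs : Sep C' := by
    intro m c c' h h'
    rcases hC m _ _ h h' with e | e
    · left
      have e1 := congrArg Prod.fst e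
      have e2 := congrArg Prod.snd e
      simp only at e1 e2
      exact Prod.ext (by linarith) e2
    · right
      refine lt_of_lt_of_eq e ?_
      simp only [n1, Prod.fst_sub, Prod.snd_sub]
      have : |(-c.1 - -c'.1)| = |c.1 - c'.1| := by
        rw [show -c.1 - -c'.1 = -(c.1 - c'.1) by ring, abs_neg]
      rw [this]
  obtain ⟨f, fL, fu, fl, fd, fe⟩ := walls n C hC f0 hlz
  obtain ⟨g, gL, gu, gl, gd, ge⟩ := walls n C' hCs f0 hlz
  have ht' : ∀ m, m < n → ∀ c ∈ C' m, (D m : ℤ) < n1 ((0, 2 * t) - c) ∧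
      (D m : ℤ) < n1 ((0, -2 * t - 1) - c) := by
    intro m hm c hc
    have h := ht m hm _ hc
    simpa [n1] using h
  have e1 : f0 (2 * t) = 0 := by
    have : ab (2 * t) = 2 * t := by unfold ab; omega
    simp only [hf0, this]; push_cast; ring
  have e2 : f0 (2 * t + 1) = 1 / 2 := by
    have : ab (2 * t + 1) = 2 * t + 1 := by unfold ab; omega
    simp only [hf0, this]; push_cast; ring
  have e3 : f0 (-2 * t - 1) = 0 := by
    have : ab (-2 * t - 1) = 2 * t := by unfold ab; omega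
    simp only [hf0, this]; push_cast; ring
  have e4 : f0 (-2 * t - 2) = 1 / 2 := by
    have : ab (-2 * t - 2) = 2 * t + 1 := by unfold ab; omega
    simp only [hf0, this]; push_cast; ring
  have F := tipval n C t f0 f ht fe
  have G := tipval n C' t f0 g ht' ge
  have w1 : |(((2 * t : ℤ) : ℝ)) - (2 * t : ℤ)| ≤ 1 := by simp
  have w2 : |(((2 * t + 1 : ℤ) : ℝ)) - (2 * t : ℤ)| ≤ 1 := by push_cast; simp
  have w3 : |(((-2 * t - 1 : ℤ) : ℝ)) - (-2 * t - 1 : ℤ)| ≤ 1 := by simp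
  have w4 : |(((-2 * t - 2 : ℤ) : ℝ)) - (-2 * t - 1 : ℤ)| ≤ 1 := by
    push_cast
    rw [show (-2 * (t : ℝ) - 2 - (-2 * t - 1)) = -1 by ring]
    simp
  have F1 : f (2 * t) = 0 := by rw [F _ (by rw [e1]; norm_num) (Or.inl w1), e1]
  have F2 : f (2 * t + 1) = 1 / 2 := by
    rw [F _ (by rw [e2, abs_of_pos] <;> norm_num) (Or.inl w2), e2]
  have F3 : f (-2 * t - 1) = 0 := by rw [F _ (by rw [e3]; norm_num) (Or.inr w3), e3]
  have F4 : f (-2 * t - 2) = 1 / 2 := by
    rw [F _ (by rw [e4, abs_of_pos] <;> norm_num) (Or.inr w4), e4]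
  have G1 : g (2 * t) = 0 := by rw [G _ (by rw [e1]; norm_num) (Or.inl w1), e1]
  have G2 : g (2 * t + 1) = 1 / 2 := by
    rw [G _ (by rw [e2, abs_of_pos] <;> norm_num) (Or.inl w2), e2]
  have G3 : g (-2 * t - 1) = 0 := by rw [G _ (by rw [e3]; norm_num) (Or.inr w3), e3]
  have G4 : g (-2 * t - 2) = 1 / 2 := by
    rw [G _ (by rw [e4, abs_of_pos] <;> norm_num) (Or.inr w4), e4]
  have hAn : (0 : ℝ) ≤ A n := Nat.cast_nonneg _
  have habr : ∀ z, (0 : ℝ) ≤ (ab z : ℝ) := fun z => by exact_mod_cast hab0 z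
  have hhalf : ∀ z, (ab z : ℝ) / 2 ≤ (((ab z + 1) / 2 : ℤ) : ℝ) := by
    intro z
    have : ab z ≤ 2 * ((ab z + 1) / 2) := by omega
    have : (ab z : ℝ) ≤ 2 * (((ab z + 1) / 2 : ℤ) : ℝ) := by exact_mod_cast this
    linarith
  refine ⟨t, fun z => ⌈f z⌉, fun z => -⌈g z⌉, ?_⟩
  refine ⟨t0, t1, fun z => ceil_close (fL z), fun z => ?_, fun z => ?_, fun z => ?_, fun z => ?_,
    fun z => ?_, ?_, ?_⟩
  · have h := ceil_close (gL z)
    show |(-⌈g (z + 1)⌉ - -⌈g z⌉)| ≤ 1
    rw [show -⌈g (z + 1)⌉ - -⌈g z⌉ = -(⌈g (z + 1)⌉ - ⌈g z⌉) by ring, abs_neg]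
    exact h
  · show ⌈f z⌉ ≤ -t + (ab z + 1) / 2
    rw [Int.ceil_le]
    have h1 := fu z
    have h2 := hhalf z
    simp only [hf0] at h1
    rw [Int.cast_add, Int.cast_neg]
    linarith
  · show t - (ab z + 1) / 2 ≤ -⌈g z⌉
    have : ⌈g z⌉ ≤ -t + (ab z + 1) / 2 := by
      rw [Int.ceil_le]
      have h1 := gu z
      have h2 := hhalf z
      simp only [hf0] at h1
      rw [Int.cast_add, Int.cast_neg]
      linarith
    linarith
  · show -8 * t - (A n : ℤ) ≤ 8 * ⌈f z⌉
    have h1 := fl z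
    have h2 := Int.le_ceil (f z)
    have h3 := habr z
    simp only [hf0] at h1
    have : ((-8 * t - (A n : ℤ) : ℤ) : ℝ) ≤ ((8 * ⌈f z⌉ : ℤ) : ℝ) := by
      push_cast
      linarith
    exact_mod_cast this
  · show 8 * (-⌈g z⌉) ≤ 8 * t + (A n : ℤ)
    have h1 := gl z
    have h2 := Int.le_ceil (g z)
    have h3 := habr z
    simp only [hf0] at h1
    have : ((8 * (-⌈g z⌉) : ℤ) : ℝ) ≤ ((8 * t + (A n : ℤ) : ℤ) : ℝ) := by
      push_cast
      linarith
    exact_mod_cast this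
  · simp only [F1, G1, F3, G3]
    simp
  · intro m hm c hc
    have hc' : ((-c.1, c.2) : Cell) ∈ C' m := by
      show (-(-c.1), c.2) ∈ C m
      rw [neg_neg]
      exact hc
    -- real form of the distance hypothesis
    have hv : ∀ v : Cell, 2 * n1 (v - c) + 8 ≤ (Q m : ℤ) →
        2 * (|(v.1 : ℝ) - c.1| + |(v.2 : ℝ) - c.2|) + 8 ≤ Q m := by
      intro v h
      have h' : ((2 * n1 (v - c) + 8 : ℤ) : ℝ) ≤ ((Q m : ℤ) : ℝ) := by exact_mod_cast h
      simpa [n1] using h'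
    rcases fd m hm c hc with fd1 | fd2
    · rcases gd m hm _ hc' with gd1 | gd2
      · -- both small
        simp only at gd1
        have hno : ∀ z : ℤ, |(z : ℝ) - c.2| ≤ Q m → f z = 1 / 2 → g z = 1 / 2 → False := by
          intro z hz hfz hgz
          have h1 := fd1 z
          have h2 := gd1 z
          push_cast at h2
          rw [hfz] at h1
          rw [hgz] at h2
          linarith
        have b1 : ¬ |((2 * t + 1 : ℤ) : ℝ) - c.2| ≤ Q m := fun h => hno _ h F2 G2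
        have b2 : ¬ |((-2 * t - 2 : ℤ) : ℝ) - c.2| ≤ Q m := fun h => hno _ h F4 G4
        have b1' : ¬ |(2 * t + 1 : ℤ) - c.2| ≤ (Q m : ℤ) := fun h => b1 (by exact_mod_cast h)
        have b2' : ¬ |(-2 * t - 2 : ℤ) - c.2| ≤ (Q m : ℤ) := fun h => b2 (by exact_mod_cast h)
        rw [abs_le] at b1' b2'
        -- the rows of `v`
        have rows : ∀ v : Cell, 2 * n1 (v - c) + 8 ≤ (Q m : ℤ) →
            c.2 - Q m ≤ v.2 ∧ v.2 ≤ c.2 + Q m := by
          intro v h
          have h1 : n1 (v - c) = |v.1 - c.1| + |v.2 - c.2| := rfl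
          have h2 := abs_nonneg (v.1 - c.1)
          have h3 := le_abs_self (v.2 - c.2)
          have h4 := neg_le_abs (v.2 - c.2)
          constructor <;> omega
        by_cases hin : c.2 + Q m < 2 * t + 1 ∧ -2 * t - 2 < c.2 - Q m
        · left
          intro v h
          obtain ⟨r1, r2⟩ := rows v h
          have hv' := hv v h
          have q1 := fd1 v.2
          have q2 := gd1 v.2
          push_cast at q2
          have n1' := le_abs_self ((v.1 : ℝ) - c.1)
          have n2' := neg_le_abs ((v.1 : ℝ) - c.1)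
          have n3' := abs_nonneg ((v.2 : ℝ) - c.2)
          have n4' := abs_nonneg ((v.1 : ℝ) - c.1)
          refine ⟨by omega, by omega, ?_, ?_⟩
          · show ⌈f v.2⌉ ≤ v.1
            rw [Int.ceil_le]
            linarith
          · show v.1 ≤ -⌈g v.2⌉
            have : ⌈g v.2⌉ ≤ -v.1 := by
              rw [Int.ceil_le]
              push_cast
              linarith
            linarith
        · right
          intro v h hP
          obtain ⟨r1, r2⟩ := rows v h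
          obtain ⟨p1, p2, -, -⟩ := hP
          apply hin
          constructor
          · by_contra hcon
            apply b1'
            constructor <;> omega
          · by_contra hcon
            apply b2'
            constructor <;> omega
      · right
        intro v h hP
        obtain ⟨-, -, -, p4⟩ := hP
        have p4' : v.1 ≤ -⌈g v.2⌉ := p4
        have hv' := hv v h
        have q := gd2 v.2
        have l := Int.le_ceil (g v.2)
        simp only at q
        push_cast at q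
        have p4'' : (v.1 : ℝ) ≤ -(⌈g v.2⌉ : ℝ) := by exact_mod_cast p4'
        have n1' := le_abs_self ((v.1 : ℝ) - c.1)
        have n2' := neg_le_abs ((v.1 : ℝ) - c.1)
        linarith
    · right
      intro v h hP
      obtain ⟨-, -, p3, -⟩ := hP
      have p3' : ⌈f v.2⌉ ≤ v.1 := p3
      have hv' := hv v h
      have q := fd2 v.2
      have l := Int.le_ceil (f v.2)
      have p3'' : (⌈f v.2⌉ : ℝ) ≤ v.1 := by exact_mod_cast p3'
      have n1' := le_abs_self ((v.1 : ℝ) - c.1)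
      have n2' := neg_le_abs ((v.1 : ℝ) - c.1)
      linarith

end SF
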