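import Pool.Agent.Helper33.SF.Stage0

/-! # SF: the new state is equivariant and local

PROOF NOTES.  If `v ∈ P c` (`P c = c + (pc ..).1`, `c ∈ Z`) then `n1 (v - c) ≤ A n`; two such `c` are equal (`SepZ`, `K n > 2 A n`), so `choose` does not matter.
`nxt_win`: only the `c` with `n1 c ≤ A n` matter, and `crop n (shS c η)` depends only on the cells with `n1 ≤ 4 A n` (the states of `InvS` have `n1 u ≤ A m ≤ A n`).
-/

set_option autoImplicit false

namespace SF

theorem nxt_shift {n : ℕ} {η : Cell → St} (h : InvS n η) {Z : Set Cell} (hZ : SepZ n Z) (w u : Cell) :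
    nxt n {v | v + w ∈ Z} (shS w η) u = nxt n Z η (u + w) := by
  sorry

theorem nxt_win {n : ℕ} {η η' : Cell → St} (h : InvS n η) (h' : InvS n η') {Z Z' : Set Cell}
    (hw : ∀ v, n1 v ≤ 4 * A n → η v = η' v ∧ (v ∈ Z ↔ v ∈ Z')) :
    nxt n Z η 0 = nxt n Z' η' 0 := by
  sorry

end SF
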