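import Pool.Agent.Helper33.SF.Ext
import Pool.Agent.Helper33.SF.Prm

/-!
# SF: one stage of the construction (deterministic part)

PROOF NOTES.  `crop_inv`: `reg (crop n η) m c` is `reg η m c` if `n1 c ≤ 2 A n` and empty otherwise.  `VP` depends only on the labels of the cells of `P` (`VP.congr`); `VP ∅ lam` is trivial.
`pc_gp`: `ext_piece` for the cropped state.  Let `c ∈ Z`: `P c = c + (pc n (crop n (shS c η))).1` lies in the ball of radius `A n` around `c`, the `P c` are far from each other (`K n ≥ 2 A n + 12`).
A region of `η` (level `m < n`, centre `c'`): if `n1 (c' - c) ≤ 2 A n` it is a region of the cropped state: `GP.dich`; otherwise it is further than `12` from `P c`.  So each region is inside of one `P c` or further than `12`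
from all of them.  The regions of `nxt n Z η` are the `P c` (level `n`, centre `c`) and the regions of `η` of the second kind (all other sets `reg (nxt n Z η) m c` are empty).
`nxt_keep`: if `v ∈ P c` and `η v = some (m, u, l)` then the centre `v + u` is in the ball `2 A n` around `c` (`n1 u ≤ A m ≤ A n`), so the cropped state knows it and `GP.ext` applies.
-/

set_option autoImplicit false

namespace SF

/-- the centres are far from each other -/
def SepZ (n : ℕ) (Z : Set Cell) : Prop := ∀ c c', c ∈ Z → c' ∈ Z → c = c' ∨ (K n : ℤ) < n1 (c - c')

theorem inv_zero : InvS 0 fun _ => none := by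
  sorry

theorem VP.congr {P : Set Cell} {lam lam' : Cell → Lb} (h : VP P lam) (hl : ∀ v ∈ P, lam v = lam' v) :
    VP P lam' := by
  sorry

theorem VP.shift {P : Set Cell} {lam : Cell → Lb} (h : VP P lam) (c : Cell) :
    VP {v | v + c ∈ P} fun v => lam (v + c) := by
  sorry

theorem inv_sh {n : ℕ} {η : Cell → St} (h : InvS n η) (c : Cell) : InvS n (shS c η) := by
  sorry

theorem crop_inv {n : ℕ} {η : Cell → St} (h : InvS n η) : InvS n (crop n η) := by
  sorry

theorem pc_gp {n : ℕ} {η : Cell → St} (h : InvS n η) (c : Cell) :
    GP n (crop n (shS c η)) (pc n (crop n (shS c η))).1 (pc n (crop n (shS c η))).2 := by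
  sorry

end SF
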