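import Pool.Agent.Helper33.SF.Stage0

/-! # SF: the new state (notes in Stage0.lean) -/

set_option autoImplicit false

namespace SF

theorem nxt_inv {n : ℕ} {η : Cell → St} (h : InvS n η) {Z : Set Cell} (hZ : SepZ n Z) :
    InvS (n + 1) (nxt n Z η) := by
  sorry

theorem nxt_keep {n : ℕ} {η : Cell → St} (h : InvS n η) {Z : Set Cell} (hZ : SepZ n Z) {v : Cell}
    {m : ℕ} {u : Cell} {l : Lb} (hv : η v = some (m, u, l)) :
    ∃ m' u', nxt n Z η v = some (m', u', l) := by
  sorry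

theorem nxt_ball {n : ℕ} {η : Cell → St} (h : InvS n η) {Z : Set Cell} (hZ : SepZ n Z) {c v : Cell}
    (hc : c ∈ Z) (hv : n1 (v - c) ≤ n) : ∃ l, nxt n Z η v = some (n, c - v, l) := by
  sorry

end SF
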