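import Pool.Agent.Helper33.SF.Run

/-!
# SF: the value `D` of a run changes along the chain as the clock says

PROOF NOTES.  Upper row `z + 1` (run `[p, e]`), lower row `z` (run `[p', e']`).  For a column `x` put
`V x = lf (gg (y x (z+1))) (gg (y x z))` if both cells have height `k` and `V x = 0` otherwise.  For each block (columns `x, x + 1`) with all four
heights `≤ k`: `dg z x - dg (z+1) x = V (x+1) - V x`.  Proof with `Ht.blk`: one height: `k`: rule `circ`, `< k`: all terms `0`; two heights
`m, m + 1 ≤ k`: if `m + 1 = k` the cells with height `k` have type `O` and equal `gg` (rule `outc`), so all terms are `0`; if `m + 1 < k` all terms are `0`.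
Left end: `p' = p`: `V p` is the term of the theorem.  `p' = p + 1`: `y p z` has height `k + 1`, `y p (z+1)`, `y (p+1) (z+1)`, `y (p+1) z` height `k`; rule
`grh` (`s = false`, `j` = lower row) gives `dg (z+1) p = 0` and `V (p+1)` = the term.  `p' = p - 1`: the same with the rows exchanged.
Right end of a finite run: rule `cst` (`s = false`) in the block of the columns `e, e + 1` (if `e' = e` or `e + 1`) or `e - 1, e` (if `e' = e - 1`): all cells with height `k` in this
block have equal `gg`, so the increments beyond `min e e'` and `V` there are `0`.  Right end of a half-infinite run (cells with height `k` are of type `O` there): rules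
`outc`, and `Ht.nd`.
`bd_psi` from `bd_step` and `ck` values: `(c + 1 : ZMod 64).val = c.val + 1` or (`c + 1 = 0` and `c.val = 63`).
-/

set_option autoImplicit false

namespace SF

variable {y : ℤ → ℤ → Lb} {h : ℤ → ℤ → ℤ}

theorem bd_step (hy : Conf y) (hh : Ht y h) {k z p e p' e' : ℤ} (h1 : Bd h k (z + 1) p e)
    (h2 : Bd h k z p' e') (hp : |p' - p| ≤ 1) :
    Step false (y p (z + 1)) (y p' z) ∧
      Dd y h k z p' e' = Dd y h k (z + 1) p e + lf (gg false (y p (z + 1))) (gg false (y p' z)) := by
  sorry

/-- the quantity which moves by `1` in each row -/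
noncomputable def psi (b : Bool) (y : ℤ → ℤ → Lb) (h : ℤ → ℤ → ℤ) (k z p e : ℤ) : ℤ :=
  (if b then -64 else 64) * Dd y h k z p e + ((ck false (y p z)).val : ℤ)

theorem bd_psi (hy : Conf y) (hh : Ht y h) {k z p e p' e' : ℤ} (h1 : Bd h k (z + 1) p e)
    (h2 : Bd h k z p' e') (hp : |p' - p| ≤ 1) :
    (ph false (y p (z + 1)) = ph false (y p' z) ∧
      psi (ph false (y p' z)) y h k z p' e' = psi (ph false (y p' z)) y h k (z + 1) p e + 1) ∨
    (ph false (y p (z + 1)) = false ∧ ph false (y p' z) = true ∧
      Dd y h k z p' e' = Dd y h k (z + 1) p e) := by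
  sorry

theorem bd_tip (hy : Conf y) (hh : Ht y h) {k z p e r : ℤ} (hr : r = 1 ∨ r = -1)
    (hb : Bd h k z p e) (he : e ≤ p + 1) (ht : ∀ x, p ≤ x → x ≤ e → h x (z + r) = k + 1) :
    Dd y h k z p e = 0 := by
  sorry

theorem abs_Dd_lt {k z p e : ℤ} (hb : Bd h k z p e) :
    |Dd y h k z p e| + 1 ≤ (((Finset.Icc p e).filter fun x => h x z = k).card : ℤ) := by
  sorry

end SF
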