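import Pool.Agent.Helper33.SF.Bump
import Pool.Agent.Helper33.SF.Prm

/-!
# SF: all levels of bumps on a wall

PROOF NOTES.  Slopes `λ m = 1/2 + 2^(-m-1)`: `λ 0 = 1`, `λ m - λ (m+1) = 2^(-m-2)`, so `(λ m - λ (m+1)) R m = 2 Q m`.  Start with `f0` (slope `1/2 ≤ λ n`), apply `bump` to the levels
`n - 1, n - 2, ..., 0` (from `λ (m+1)` to `λ m`, `Q m`, `R m`, `K m`).  Statement for the induction (downwards over `m ≤ n`): `f_m` with slope `λ m`, `f_m ≤ f0`, `f0 - 2 ∑_(m ≤ j < n) Q j ≤ f_m`,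
for `j ∈ [m, n)` and `c ∈ C j`: `f_m z ≤ c.1 - Q j + |z - c.2|` for all `z`, or `c.1 + Q j - |z - c.2| - 2 ∑_(m ≤ i < j) Q i < f_m z` for all `z` (use `sum_Q`: the sum is `≤ Q j / 4` at the end), and
`f_m z ≠ f0 z → ∃ j ∈ [m, n), c ∈ C j, |z - c.2| ≤ R j ∧ |c.1 - f0 z| ≤ 2 R j`.
-/

set_option autoImplicit false

namespace SF

theorem walls (n : ℕ) (C : ℕ → Set Cell) (hC : Sep C) (f0 : ℤ → ℝ) (hf : Lz (1 / 2) f0) :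
    ∃ f : ℤ → ℝ, Lz 1 f ∧ (∀ z, f z ≤ f0 z) ∧ (∀ z, f0 z - A n / 16 ≤ f z) ∧
      (∀ m, m < n → ∀ c ∈ C m, (∀ z : ℤ, f z ≤ c.1 - Q m + |(z : ℝ) - c.2|) ∨
        ∀ z : ℤ, c.1 + Q m / 2 - |(z : ℝ) - c.2| < f z) ∧
      ∀ z : ℤ, f z ≠ f0 z → ∃ m, m < n ∧ ∃ c ∈ C m, |(z : ℝ) - c.2| ≤ R m ∧
        |(c.1 : ℝ) - f0 z| ≤ 2 * R m := by
  sorry

end SF
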